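import Mathlib

set_option autoImplicit false

/-!
# Chains on `ℕ^ι` that are small boundaries
-/

namespace Pool.Agent.Q26.CG

variable {ι : Type} [Fintype ι]

/-- the sup distance on `ℕ^ι` -/
def nd (x y : ι → ℕ) : ℕ := Finset.univ.sup fun i => (x i - y i) + (y i - x i)

lemma nd_le_iff {x y : ι → ℕ} {r : ℕ} : nd x y ≤ r ↔ ∀ i, x i ≤ y i + r ∧ y i ≤ x i + r := by
  unfold nd
  rw [Finset.sup_le_iff]
  constructor
  · intro h i
    have := h i (Finset.mem_univ i)
    omega
  · intro h i _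
    have := h i
    omega

lemma nd_comm (x y : ι → ℕ) : nd x y = nd y x := by
  unfold nd
  congr 1
  funext i
  omega

lemma nd_tri (x y z : ι → ℕ) : nd x z ≤ nd x y + nd y z := by
  rw [nd_le_iff]
  intro i
  have h1 := nd_le_iff.1 (le_refl (nd x y)) i
  have h2 := nd_le_iff.1 (le_refl (nd y z)) i
  omega

lemma nd_self (x : ι → ℕ) : nd x x = 0 := by
  have : nd x x ≤ 0 := nd_le_iff.2 fun i => by omega
  omega

lemma nd_eq_zero {x y : ι → ℕ} (h : nd x y = 0) : x = y := by
  funext i
  have := nd_le_iff.1 h.le i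
  omega

variable {R : Type} [CommRing R]

/-- `c` is, up to a multiple of the origin, a sum of `k` edges of length at most `D` -/
inductive Fill (D : ℕ) : ℕ → ((ι → ℕ) →₀ R) → Prop
  | base (y : R) : Fill D 0 (Finsupp.single 0 y)
  | step {k : ℕ} {c : (ι → ℕ) →₀ R} (x : R) (v v' : ι → ℕ) : nd v v' ≤ D → Fill D k c →
      Fill D (k + 1) (c + (Finsupp.single v x - Finsupp.single v' x))

lemma Fill.zero (D : ℕ) : Fill D 0 (0 : (ι → ℕ) →₀ R) := by
  have := Fill.base (ι := ι) (R := R) (D := D) 0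
  rwa [Finsupp.single_zero] at this

lemma Fill.succ {D k : ℕ} {c : (ι → ℕ) →₀ R} (h : Fill D k c) : Fill D (k + 1) c := by
  have := Fill.step 0 0 0 (by rw [nd_self]; exact Nat.zero_le _) h
  simpa using this

lemma Fill.mono {D k k' : ℕ} {c : (ι → ℕ) →₀ R} (h : Fill D k c) (hk : k ≤ k') :
    Fill D k' c := by
  induction hk with
  | refl => exact h
  | step _ ih => exact ih.succ

lemma Fill.monoD {D D' k : ℕ} {c : (ι → ℕ) →₀ R} (h : Fill D k c) (hD : D ≤ D') :
    Fill D' k c := by
  induction h with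
  | base y => exact Fill.base y
  | step x v v' hv _ ih => exact Fill.step x v v' (hv.trans hD) ih

lemma Fill.add {D k k' : ℕ} {c c' : (ι → ℕ) →₀ R} (h : Fill D k c) (h' : Fill D k' c') :
    Fill D (k + k') (c + c') := by
  induction h' with
  | base y =>
    induction h with
    | base y' =>
      rw [← Finsupp.single_add]
      exact Fill.base _
    | step x v v' hv _ ih =>
      have := Fill.step x v v' hv ih
      convert this using 1
      abel
  | step x v v' hv _ ih =>
    have := Fill.step x v v' hv ih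
    rw [← add_assoc c]
    exact this

lemma Fill.smul {D k : ℕ} {c : (ι → ℕ) →₀ R} (a : R) (h : Fill D k c) : Fill D k (a • c) := by
  induction h with
  | base y =>
    rw [Finsupp.smul_single]
    exact Fill.base _
  | step x v v' hv _ ih =>
    have := Fill.step (a • x) v v' hv ih
    rwa [smul_add, smul_sub, Finsupp.smul_single, Finsupp.smul_single]

lemma Fill.neg {D k : ℕ} {c : (ι → ℕ) →₀ R} (h : Fill D k c) : Fill D k (-c) := by
  have := h.smul (-1)
  rwa [neg_smul, one_smul] at this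

lemma Fill.sub {D k k' : ℕ} {c c' : (ι → ℕ) →₀ R} (h : Fill D k c) (h' : Fill D k' c') :
    Fill D (k + k') (c - c') := by
  rw [sub_eq_add_neg]
  exact h.add h'.neg

lemma Fill.sum {D k : ℕ} {α : Type} (s : Finset α) (c : α → ((ι → ℕ) →₀ R))
    (h : ∀ i ∈ s, Fill D k (c i)) : Fill D (s.card * k) (∑ i ∈ s, c i) := by
  classical
  induction s using Finset.induction_on with
  | empty => simpa using Fill.zero D
  | insert a s ha ih =>
    rw [Finset.sum_insert ha, Finset.card_insert_of_notMem ha]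
    have h1 := ih fun i hi => h i (Finset.mem_insert_of_mem hi)
    have h2 := (h a (Finset.mem_insert_self a s)).add h1
    refine h2.mono (le_of_eq ?_)
    ring

/-- the sum of the coefficients in the ball of radius `ρ` around `τ` -/
noncomputable def bs (τ : ι → ℕ) (ρ : ℕ) (c : (ι → ℕ) →₀ R) : R :=
  c.sum fun x v => if nd x τ ≤ ρ then v else 0

lemma bs_add (τ : ι → ℕ) (ρ : ℕ) (c c' : (ι → ℕ) →₀ R) :
    bs τ ρ (c + c') = bs τ ρ c + bs τ ρ c' := by
  unfold bs
  apply Finsupp.sum_add_index'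
  · intro a
    simp
  · intro a b c
    split_ifs <;> simp

lemma bs_single (τ : ι → ℕ) (ρ : ℕ) (v : ι → ℕ) (x : R) :
    bs τ ρ (Finsupp.single v x) = if nd v τ ≤ ρ then x else 0 := by
  unfold bs
  rw [Finsupp.sum_single_index]
  simp

lemma bs_neg (τ : ι → ℕ) (ρ : ℕ) (c : (ι → ℕ) →₀ R) : bs τ ρ (-c) = -bs τ ρ c := by
  have h := bs_add τ ρ c (-c)
  rw [add_neg_cancel] at h
  have h0 : bs τ ρ (0 : (ι → ℕ) →₀ R) = 0 := by
    unfold bs
    simp
  rw [h0] at h
  exact (neg_eq_of_add_eq_zero_right h.symm).symm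

lemma bs_sub (τ : ι → ℕ) (ρ : ℕ) (c c' : (ι → ℕ) →₀ R) :
    bs τ ρ (c - c') = bs τ ρ c - bs τ ρ c' := by
  rw [sub_eq_add_neg, bs_add, bs_neg, sub_eq_add_neg]

lemma thr {D k : ℕ} {c : (ι → ℕ) →₀ R} (h : Fill D k c) (τ : ι → ℕ) (r : ℕ) :
    ∃ (y : R) (Bad : Finset ℕ), Bad.card ≤ k ∧ ∀ t, t ∉ Bad →
      bs τ (r + t * D) c = if nd 0 τ ≤ r + t * D then y else 0 := by
  classical
  induction h with
  | base y =>
    refine ⟨y, ∅, by simp, fun t _ => ?_⟩
    rw [bs_single]
  | @step k c x v v' hv _ ih =>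
    obtain ⟨y, Bad, h1, h2⟩ := ih
    -- the cut thresholds
    have key : ∃ B : Finset ℕ, B.card ≤ 1 ∧ ∀ t, t ∉ B →
        (nd v τ ≤ r + t * D ↔ nd v' τ ≤ r + t * D) := by
      by_cases hex : ∃ t0, ¬ (nd v τ ≤ r + t0 * D ↔ nd v' τ ≤ r + t0 * D)
      · obtain ⟨t0, ht0⟩ := hex
        refine ⟨{t0}, by simp, fun t ht => ?_⟩
        rw [Finset.mem_singleton] at ht
        have h3 := nd_tri v v' τ
        have h4 := nd_tri v' v τ
        rw [nd_comm v' v] at h4
        by_contra hc
        rcases Nat.lt_or_gt_of_ne ht with hlt | hlt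
        · obtain ⟨d, rfl⟩ := Nat.exists_eq_add_of_lt hlt
          have e : (t + d + 1) * D = t * D + d * D + D := by ring
          rw [e] at ht0
          have : 0 ≤ d * D := Nat.zero_le _
          omega
        · obtain ⟨d, rfl⟩ := Nat.exists_eq_add_of_lt hlt
          have e : (t0 + d + 1) * D = t0 * D + d * D + D := by ring
          rw [e] at hc
          have : 0 ≤ d * D := Nat.zero_le _
          omega
      · push Not at hex
        exact ⟨∅, by simp, fun t _ => by
          by_contra hc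
          exact absurd (hex t) (by tauto)⟩
    obtain ⟨B, h3, h4⟩ := key
    refine ⟨y, Bad ∪ B, (Finset.card_union_le _ _).trans (by omega), fun t ht => ?_⟩
    rw [Finset.mem_union, not_or] at ht
    rw [bs_add, bs_sub, bs_single, bs_single, h2 t ht.1]
    have h5 := h4 t ht.2
    by_cases h6 : nd v τ ≤ r + t * D
    · rw [if_pos h6, if_pos (h5.1 h6)]
      simp
    · rw [if_neg h6, if_neg (fun h7 => h6 (h5.2 h7))]
      simp

theorem fill_ball {D k : ℕ} {c : (ι → ℕ) →₀ R} (h : Fill D k c) (τ : ι → ℕ) (r : ℕ)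
    (hs : ∀ x, c x ≠ 0 → nd x τ ≤ r ∨ r + k * D < nd x τ) (h0 : r + k * D < nd 0 τ) :
    bs τ r c = 0 := by
  classical
  obtain ⟨y, Bad, h1, h2⟩ := thr h τ r
  have : ∃ t ∈ Finset.range (k + 1), t ∉ Bad := by
    by_contra hc
    push Not at hc
    have h3 : Finset.range (k + 1) ⊆ Bad := hc
    have h4 := Finset.card_le_card h3
    rw [Finset.card_range] at h4
    omega
  obtain ⟨t, ht, htB⟩ := this
  rw [Finset.mem_range] at ht
  have h5 : t * D ≤ k * D := Nat.mul_le_mul_right _ (by omega)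
  have h3 := h2 t htB
  rw [if_neg (by omega)] at h3
  rw [← h3]
  unfold bs
  refine Finsupp.sum_congr fun x hx => ?_
  rw [Finsupp.mem_support_iff] at hx
  have h6 := hs x hx
  have h7 : (nd x τ ≤ r) ↔ (nd x τ ≤ r + t * D) := by omega
  simp only [h7]

end Pool.Agent.Q26.CG
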