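import Mathlib
import Pool.Agent.TH539.MQRatio
import Pool.Agent.Q26.CG.Fill

set_option autoImplicit false

/-!
# Short vanishing sums of S-units split into blocks with bounded ratios
-/

namespace Pool.Agent.Q26.CG

open Pool.Agent.TH539.MQ Pool.Agent.TH551.SU

lemma box_sum {ι : Type} (m : ℕ) (s : Finset ι) (f : ι → ℚ) (h : ∀ i ∈ s, f i ∈ box m) :
    ∑ i ∈ s, f i ∈ box ((2 * (m + 1)) ^ s.card) := by
  classical
  induction s using Finset.induction_on with
  | empty => simpa using zero_mem_box (le_refl 1)
  | insert a s ha ih =>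
    rw [Finset.sum_insert ha, Finset.card_insert_of_notMem ha]
    have h1 := ih fun i hi => h i (Finset.mem_insert_of_mem hi)
    have h2 := box_mono (Nat.le_succ m) (h a (Finset.mem_insert_self a s))
    have h3 := box_add h2 h1
    refine box_mono (le_of_eq ?_) h3
    rw [pow_succ, Nat.succ_eq_add_one]
    ring

lemma box_inv {n : ℕ} {x : ℚ} (hx : x ∈ box n) (h0 : x ≠ 0) : x⁻¹ ∈ box n := by
  obtain ⟨a, d, h1, h2, h3, rfl⟩ := box_rep hx
  have ha : a ≠ 0 := by
    rintro rfl
    simp at h0
  have e : ((a : ℚ) / (d : ℚ))⁻¹ = ((a.sign * d : ℤ) : ℚ) / ((a.natAbs : ℕ) : ℚ) := by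
    have h4 : (a : ℚ) = (a.sign : ℚ) * (a.natAbs : ℚ) := by
      have h5 := Int.sign_mul_natAbs a
      have h6 : ((a.sign * (a.natAbs : ℤ) : ℤ) : ℚ) = (a : ℚ) := by rw [h5]
      rw [← h6, Int.cast_mul, Int.cast_natCast]
    have h5 : (a.natAbs : ℚ) ≠ 0 := by
      exact_mod_cast Int.natAbs_ne_zero.2 ha
    have h6 : (d : ℚ) ≠ 0 := by
      have : d ≠ 0 := by omega
      exact_mod_cast this
    have h7 : (a.sign : ℚ) * a.sign = 1 := by
      rcases lt_or_gt_of_ne ha with h | h
      · rw [Int.sign_eq_neg_one_of_neg h]
        norm_num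
      · rw [Int.sign_eq_one_of_pos h]
        norm_num
    have h8 : (a.sign : ℚ) ≠ 0 := by
      intro h
      rw [h] at h7
      norm_num at h7
    rw [h4]
    push_cast
    rw [inv_div, div_eq_div_iff (mul_ne_zero h8 h5) h5]
    calc (d : ℚ) * (a.natAbs : ℚ) = ((a.sign : ℚ) * a.sign) * (d * (a.natAbs : ℚ)) := by
          rw [h7, one_mul]
      _ = a.sign * d * (a.sign * (a.natAbs : ℚ)) := by ring
  rw [e]
  refine mem_box' _ _ ?_ (Int.natAbs_pos.2 ha) ?_
  · rw [abs_mul, Int.abs_sign_of_ne_zero ha, one_mul, Nat.abs_cast]
    exact_mod_cast h3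
  · have := Int.natCast_natAbs a
    omega

open Classical in
theorem parts {s : ℕ} (b : Fin s → ℕ) (hb : ∀ v, (b v).Prime) (hbi : Function.Injective b)
    (ι : Type) [Fintype ι] (h : ℕ) : ∀ n H : ℕ, ∃ H' : ℕ, ∀ (c u : ι → ℚ),
      (∀ i, c i ∈ box h) → (∀ i, IsSU b (u i)) → ∑ i, c i * u i = 0 →
      ∀ lam : ι → ι, (∀ i, u i / u (lam i) ∈ box H) →
        (Finset.univ.filter fun β => (∑ i with lam i = β, c i * u i) ≠ 0).card ≤ n →
      ∃ lam' : ι → ι, (∀ i, u i / u (lam' i) ∈ box H') ∧
        ∀ β, (∑ i with lam' i = β, c i * u i) = 0 := by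
  intro n
  induction n with
  | zero =>
    intro H
    refine ⟨H, fun c u _ _ _ lam h1 h2 => ⟨lam, h1, fun β => ?_⟩⟩
    have h3 : (Finset.univ.filter fun β => (∑ i with lam i = β, c i * u i) ≠ 0) = ∅ := by
      rw [← Finset.card_eq_zero]
      omega
    by_contra hc
    have : β ∈ (Finset.univ.filter fun β => (∑ i with lam i = β, c i * u i) ≠ 0) := by
      rw [Finset.mem_filter]
      exact ⟨Finset.mem_univ _, hc⟩
    rw [h3] at this
    exact absurd this (Finset.notMem_empty _)
  | succ n ih =>
    intro H
    obtain ⟨C, hC⟩ := ratio b hb hbi ι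
    let h' := (2 * (h * H + 1)) ^ Fintype.card ι
    obtain ⟨H', hH'⟩ := ih (H * (C * h' ^ C) + H)
    refine ⟨max H' H, fun c u hc hu hsum lam h1 h2 => ?_⟩
    rcases (Finset.univ.filter fun β => (∑ i with lam i = β, c i * u i) ≠ 0).eq_empty_or_nonempty
      with h3 | ⟨β, hβ⟩
    · refine ⟨lam, fun i => box_mono (le_max_right _ _) (h1 i), fun β => ?_⟩
      by_contra hc
      have : β ∈ (Finset.univ.filter fun β => (∑ i with lam i = β, c i * u i) ≠ 0) := by
        rw [Finset.mem_filter]
        exact ⟨Finset.mem_univ _, hc⟩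
      rw [h3] at this
      exact absurd this (Finset.notMem_empty _)
    · have hu0 : ∀ i, u i ≠ 0 := fun i => isSU_ne b hb (hu i)
      let c' : ι → ℚ := fun β => ∑ i with lam i = β, c i * (u i / u (lam i))
      have hc' : ∀ β, c' β * u β = ∑ i with lam i = β, c i * u i := by
        intro β
        simp only [c']
        rw [Finset.sum_mul]
        refine Finset.sum_congr rfl fun i hi => ?_
        rw [Finset.mem_filter] at hi
        rw [hi.2]
        have := hu0 β
        field_simp
      have hbox : ∀ β, c' β ∈ box h' := by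
        intro β
        simp only [c']
        have h4 := box_sum (h * H) (Finset.univ.filter fun i => lam i = β)
          (fun i => c i * (u i / u (lam i))) (fun i _ => box_mul (hc i) (h1 i))
        refine box_mono ?_ h4
        exact Nat.pow_le_pow_right (by omega) (Finset.card_le_univ _)
      have hh' : 1 ≤ h' := Nat.one_le_iff_ne_zero.2 (pow_pos (by omega) _).ne'
      have hzero : ∑ β ∈ (Finset.univ.filter fun β => (∑ i with lam i = β, c i * u i) ≠ 0),
          c' β * u β = 0 := by
        have e := Finset.sum_fiberwise Finset.univ lam fun i => c i * u i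
        rw [hsum] at e
        refine Eq.trans ?_ e
        rw [Finset.sum_filter]
        refine Finset.sum_congr rfl fun β _ => ?_
        split_ifs with h5
        · exact hc' β
        · push Not at h5
          exact h5.symm
      obtain ⟨γ, hγ, hγβ, hr⟩ := hC h' hh' _ c' u (by
        intro i hi
        rw [Finset.mem_filter] at hi
        refine ⟨fun h0 => hi.2 ?_, hbox i⟩
        rw [← hc', h0, zero_mul]) (fun i _ => hu i) hzero β hβ
      obtain ⟨lam', h6, h7⟩ := hH' c u hc hu hsum (fun i => if lam i = β then γ else lam i) (by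
        intro i
        beta_reduce
        split_ifs with h8
        · have e : u i / u γ = (u i / u (lam i)) * (u β / u γ) := by
            rw [h8]
            have := hu0 β
            have := hu0 γ
            field_simp
          rw [e]
          exact box_mono (by omega) (box_mul (h1 i) hr)
        · exact box_mono (by omega) (h1 i)) (by
        have hsub : (Finset.univ.filter fun δ =>
            (∑ i with (if lam i = β then γ else lam i) = δ, c i * u i) ≠ 0) ⊆
            (Finset.univ.filter fun β => (∑ i with lam i = β, c i * u i) ≠ 0).erase β := by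
          intro δ hδ
          rw [Finset.mem_filter] at hδ
          have h8 : δ ≠ β := by
            rintro rfl
            apply hδ.2
            apply Finset.sum_eq_zero
            intro i hi
            rw [Finset.mem_filter] at hi
            exfalso
            have h9 := hi.2
            split_ifs at h9 with h10
            · exact hγβ h9
            · exact h10 h9
          rw [Finset.mem_erase]
          refine ⟨h8, ?_⟩
          by_cases h9 : δ = γ
          · rw [h9]
            exact hγ
          · rw [Finset.mem_filter]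
            refine ⟨Finset.mem_univ _, ?_⟩
            have e : (Finset.univ.filter fun i => lam i = δ) =
                Finset.univ.filter fun i => (if lam i = β then γ else lam i) = δ := by
              ext i
              rw [Finset.mem_filter, Finset.mem_filter]
              split_ifs with h10
              · constructor
                · rintro ⟨-, h11⟩
                  exact absurd (h11.symm.trans h10) h8
                · rintro ⟨-, h11⟩
                  exact absurd h11.symm h9
              · exact Iff.rfl
            rw [e]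
            exact hδ.2
        have h10 := Finset.card_le_card hsub
        rw [Finset.card_erase_of_mem hβ] at h10
        omega)
      exact ⟨lam', fun i => box_mono (le_max_left _ _) (h6 i), h7⟩

open Classical in
theorem parts' {s : ℕ} (b : Fin s → ℕ) (hb : ∀ v, (b v).Prime) (hbi : Function.Injective b)
    (ι : Type) [Fintype ι] (h : ℕ) : ∃ H : ℕ, ∀ (c u : ι → ℚ),
      (∀ i, c i ∈ box h) → (∀ i, IsSU b (u i)) → ∑ i, c i * u i = 0 →
      ∃ lam : ι → ι, (∀ i j, lam i = lam j → u i / u j ∈ box H) ∧
        ∀ β, (∑ i with lam i = β, c i * u i) = 0 := by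
  obtain ⟨H', hH'⟩ := parts b hb hbi ι h (Fintype.card ι) 1
  refine ⟨H' * H', fun c u hc hu hsum => ?_⟩
  have hu0 : ∀ i, u i ≠ 0 := fun i => isSU_ne b hb (hu i)
  obtain ⟨lam, h1, h2⟩ := hH' c u hc hu hsum id (by
    intro i
    rw [id, div_self (hu0 i)]
    have := mem_box' (n := 1) 1 1 (by norm_num) le_rfl le_rfl
    simpa using this) (Finset.card_le_univ _)
  refine ⟨lam, fun i j hij => ?_, h2⟩
  have e : u i / u j = (u i / u (lam i)) * (u j / u (lam j))⁻¹ := by
    rw [hij]
    have := hu0 (lam j)
    have := hu0 j
    field_simp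
  rw [e]
  exact box_mul (h1 i) (box_inv (h1 j) (div_ne_zero (hu0 _) (hu0 _)))

end Pool.Agent.Q26.CG
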