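import Mathlib
import Pool.Agent.Q26.CG.SUn

set_option autoImplicit false

/-!
# Chains of bounded length in the word metric are small boundaries modulo `ℓ`
-/

namespace Pool.Agent.Q26.CG

open Pool.Agent.TH539.MQ Pool.Agent.TH551.SU

/-- `P^*` -/
def Star (P : Finset ℕ) : Set ℤ := {s | ∃ a : ℕ → ℕ, s = ∏ p ∈ P, (p : ℤ) ^ a p}

/-- `z` has word length at most `k` with respect to `±P^*` -/
def Len (P : Finset ℕ) (k : ℕ) (z : ℤ) : Prop :=
  ∃ L : List ℤ, L.length ≤ k ∧ (∀ s ∈ L, s ∈ Star P ∨ -s ∈ Star P) ∧ L.sum = z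

lemma one_star (P : Finset ℕ) : (1 : ℤ) ∈ Star P := ⟨fun _ => 0, by simp⟩

lemma Len.mono {P : Finset ℕ} {k k' : ℕ} {z : ℤ} (h : Len P k z) (hk : k ≤ k') : Len P k' z := by
  obtain ⟨L, h1, h2, h3⟩ := h
  exact ⟨L, h1.trans hk, h2, h3⟩

lemma Len.add {P : Finset ℕ} {k k' : ℕ} {z z' : ℤ} (h : Len P k z) (h' : Len P k' z') :
    Len P (k + k') (z + z') := by
  obtain ⟨L, h1, h2, h3⟩ := h
  obtain ⟨L', h1', h2', h3'⟩ := h'
  refine ⟨L ++ L', ?_, ?_, ?_⟩
  · rw [List.length_append]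
    omega
  · intro s hs
    rw [List.mem_append] at hs
    exact hs.elim (h2 s) (h2' s)
  · rw [List.sum_append, h3, h3']

lemma Len.neg {P : Finset ℕ} {k : ℕ} {z : ℤ} (h : Len P k z) : Len P k (-z) := by
  obtain ⟨L, h1, h2, h3⟩ := h
  refine ⟨L.map Neg.neg, ?_, ?_, ?_⟩
  · rwa [List.length_map]
  · intro s hs
    rw [List.mem_map] at hs
    obtain ⟨t, ht, rfl⟩ := hs
    rw [neg_neg]
    exact (h2 t ht).symm
  · rw [← h3, List.sum_neg]

lemma Len.sub {P : Finset ℕ} {k k' : ℕ} {z z' : ℤ} (h : Len P k z) (h' : Len P k' z') :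
    Len P (k + k') (z - z') := by
  rw [sub_eq_add_neg]
  exact h.add h'.neg

lemma Len.zero (P : Finset ℕ) : Len P 0 0 := ⟨[], by simp, by simp, by simp⟩

lemma Len.star {P : Finset ℕ} {s : ℤ} (h : s ∈ Star P) : Len P 1 s :=
  ⟨[s], by simp, by simpa using Or.inl h, by simp⟩

lemma Len.nmul {P : Finset ℕ} {k : ℕ} {z : ℤ} (h : Len P k z) (n : ℕ) :
    Len P (n * k) (n * z) := by
  induction n with
  | zero => simpa using Len.zero P
  | succ n ih =>
    have := ih.add h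
    push_cast
    rw [add_mul, one_mul, add_mul, one_mul]
    exact this

lemma Len.zmul {P : Finset ℕ} {k : ℕ} {z : ℤ} (h : Len P k z) (n : ℤ) :
    Len P (n.natAbs * k) (n * z) := by
  rcases Int.natAbs_eq n with h1 | h1
  · have := h.nmul n.natAbs
    rwa [← h1] at this
  · have := (h.nmul n.natAbs).neg
    rwa [← neg_mul, ← h1] at this

lemma Len.int (P : Finset ℕ) (n : ℤ) : Len P n.natAbs n := by
  have := (Len.star (one_star P)).zmul n
  rwa [mul_one, mul_one] at this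

lemma sum_getD {α M : Type} [AddCommMonoid M] (d : α) (f : α → M) (hd : f d = 0) :
    ∀ (N : ℕ) (L : List α), L.length ≤ N → ∑ i : Fin N, f (L.getD i d) = (L.map f).sum := by
  intro N
  induction N with
  | zero =>
    intro L hL
    have : L = [] := List.length_eq_zero_iff.1 (by omega)
    subst this
    simp
  | succ N ih =>
    intro L hL
    rcases L with - | ⟨a, L⟩
    · simp [hd]
    · rw [Fin.sum_univ_succ, List.map_cons, List.sum_cons, ← ih L (by
        rw [List.length_cons] at hL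
        omega)]
      rfl

lemma getD_prop {α : Type} (d : α) (p : α → Prop) (L : List α) (h : ∀ x ∈ L, p x) (hd : p d)
    (i : ℕ) : p (L.getD i d) := by
  by_cases hi : i < L.length
  · rw [List.getD_eq_getElem _ _ hi]
    exact h _ (List.getElem_mem hi)
  · rw [List.getD_eq_default _ _ (by omega)]
    exact hd

section tt

variable (P : Finset ℕ) (ℓ : ℕ)

/-- products of `(ℓ-1)`-st powers -/
def tt (u : ↥(P.erase ℓ) → ℕ) : ℕ := ∏ p : ↥(P.erase ℓ), (p : ℕ) ^ ((ℓ - 1) * u p)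

/-- the integers `(t_u - 1)/ℓ` -/
def EE (u : ↥(P.erase ℓ) → ℕ) : ℤ := ((tt P ℓ u : ℤ) - 1) / ℓ

variable {P ℓ}

lemma tt_zero : tt P ℓ 0 = 1 := by
  unfold tt
  simp

lemma tt_mod (hP : ∀ p ∈ P, p.Prime) (hℓ : ℓ.Prime) (u : ↥(P.erase ℓ) → ℕ) :
    (tt P ℓ u : ZMod ℓ) = 1 := by
  have : Fact ℓ.Prime := ⟨hℓ⟩
  unfold tt
  rw [Nat.cast_prod]
  apply Finset.prod_eq_one
  intro p _
  have hp := Finset.mem_erase.1 p.2
  rw [Nat.cast_pow, pow_mul, ZMod.pow_card_sub_one_eq_one, one_pow]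
  intro h0
  rw [ZMod.natCast_eq_zero_iff] at h0
  exact hp.1 ((Nat.prime_dvd_prime_iff_eq hℓ (hP _ hp.2)).1 h0).symm

lemma EE_spec (hP : ∀ p ∈ P, p.Prime) (hℓ : ℓ.Prime) (u : ↥(P.erase ℓ) → ℕ) :
    (ℓ : ℤ) * EE P ℓ u = tt P ℓ u - 1 := by
  unfold EE
  apply Int.mul_ediv_cancel'
  rw [← ZMod.intCast_zmod_eq_zero_iff_dvd]
  push_cast
  rw [tt_mod hP hℓ, sub_self]

lemma tt_pos (hP : ∀ p ∈ P, p.Prime) (u : ↥(P.erase ℓ) → ℕ) : 0 < tt P ℓ u := by
  unfold tt
  apply Finset.prod_pos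
  intro p _
  exact pow_pos (hP _ (Finset.mem_erase.1 p.2).2).pos _

open Classical in
lemma tt_star (u : ↥(P.erase ℓ) → ℕ) : (tt P ℓ u : ℤ) ∈ Star P := by
  refine ⟨fun p => if h : p ∈ P.erase ℓ then (ℓ - 1) * u ⟨p, h⟩ else 0, ?_⟩
  unfold tt
  rw [Nat.cast_prod]
  have h1 : ∀ p : ↥(P.erase ℓ), (((p : ℕ) ^ ((ℓ - 1) * u p) : ℕ) : ℤ) =
      (fun q : ℕ => (q : ℤ) ^ (if h : q ∈ P.erase ℓ then (ℓ - 1) * u ⟨q, h⟩ else 0)) p := by
    intro p
    beta_reduce
    rw [dif_pos p.2]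
    push_cast
    rfl
  rw [Finset.prod_congr rfl fun p _ => h1 p]
  rw [Finset.prod_coe_sort (P.erase ℓ)
    (fun q : ℕ => (q : ℤ) ^ (if h : q ∈ P.erase ℓ then (ℓ - 1) * u ⟨q, h⟩ else 0))]
  apply Finset.prod_subset (Finset.erase_subset _ _)
  intro q _ hq
  rw [dif_neg hq, pow_zero]

lemma tt_fact (hP : ∀ p ∈ P, p.Prime) (u : ↥(P.erase ℓ) → ℕ) (p : ↥(P.erase ℓ)) :
    (tt P ℓ u).factorization p = (ℓ - 1) * u p := by
  classical
  unfold tt
  rw [Nat.factorization_prod]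
  · rw [Finsupp.finsetSum_apply, Finset.sum_eq_single p]
    · rw [Nat.factorization_pow, (hP _ (Finset.mem_erase.1 p.2).2).factorization]
      simp
    · intro q _ hq
      rw [Nat.factorization_pow, (hP _ (Finset.mem_erase.1 q.2).2).factorization]
      simp only [Finsupp.smul_apply, Finsupp.single_apply]
      rw [if_neg]
      · simp
      · intro h
        exact hq (Subtype.ext h)
    · intro h
      exact absurd (Finset.mem_univ _) h
  · intro q _
    exact pow_ne_zero _ (hP _ (Finset.mem_erase.1 q.2).2).ne_zero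

lemma tt_near (hP : ∀ p ∈ P, p.Prime) (hℓ : ℓ.Prime) (v w : ↥(P.erase ℓ) → ℕ) (H : ℕ)
    (h : ((tt P ℓ v : ℚ)) / ((tt P ℓ w : ℚ)) ∈ box H) : nd v w ≤ H := by
  obtain ⟨a, d, h1, h2, h3, h4⟩ := box_rep h
  have hv := tt_pos (ℓ := ℓ) hP v
  have hw := tt_pos (ℓ := ℓ) hP w
  have hv' : (0 : ℚ) < tt P ℓ v := by exact_mod_cast hv
  have hw' : (0 : ℚ) < tt P ℓ w := by exact_mod_cast hw
  have hd : (0 : ℚ) < d := by exact_mod_cast h2
  have ha : 0 < a := by
    have h5 : (0 : ℚ) < (a : ℚ) / d := by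
      rw [← h4]
      positivity
    have h6 : (0 : ℚ) < a := by
      by_contra hc
      push Not at hc
      exact absurd h5 (not_lt.2 (div_nonpos_of_nonpos_of_nonneg hc hd.le))
    exact_mod_cast h6
  obtain ⟨n, rfl⟩ := Int.eq_ofNat_of_zero_le ha.le
  have hn : 0 < n := by exact_mod_cast ha
  have hnH : n ≤ H := by
    rw [Nat.abs_cast] at h1
    exact_mod_cast h1
  have e : tt P ℓ v * d = n * tt P ℓ w := by
    rw [div_eq_div_iff hw'.ne' hd.ne'] at h4
    have : ((tt P ℓ v * d : ℕ) : ℚ) = ((n * tt P ℓ w : ℕ) : ℚ) := by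
      push_cast at h4 ⊢
      exact h4
    exact_mod_cast this
  rw [nd_le_iff]
  intro p
  have e2 := congrArg (fun m : ℕ => m.factorization p) e
  rw [Nat.factorization_mul hv.ne' (by omega), Nat.factorization_mul hn.ne' hw.ne'] at e2
  rw [Finsupp.add_apply, Finsupp.add_apply, tt_fact hP, tt_fact hP] at e2
  have f1 := Nat.factorization_lt (p : ℕ) (by omega : d ≠ 0)
  have f2 := Nat.factorization_lt (p : ℕ) (by omega : n ≠ 0)
  have hℓ1 : 1 ≤ ℓ - 1 := by
    have := hℓ.two_le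
    omega
  constructor
  · by_contra hc
    push Not at hc
    obtain ⟨x, hx⟩ := Nat.exists_eq_add_of_lt hc
    have h5 : (ℓ - 1) * v p = (ℓ - 1) * w p + (ℓ - 1) * (H + x + 1) := by
      rw [hx]
      ring
    have h6 : H + x + 1 ≤ (ℓ - 1) * (H + x + 1) := Nat.le_mul_of_pos_left _ hℓ1
    omega
  · by_contra hc
    push Not at hc
    obtain ⟨x, hx⟩ := Nat.exists_eq_add_of_lt hc
    have h5 : (ℓ - 1) * w p = (ℓ - 1) * v p + (ℓ - 1) * (H + x + 1) := by
      rw [hx]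
      ring
    have h6 : H + x + 1 ≤ (ℓ - 1) * (H + x + 1) := Nat.le_mul_of_pos_left _ hℓ1
    omega

end tt

lemma star_isSU (P : Finset ℕ) {x : ℤ} (h : x ∈ Star P ∨ -x ∈ Star P) :
    IsSU (fun i : Fin P.card => ((P.equivFin.symm i : ↥P) : ℕ)) (x : ℚ) := by
  have key : ∀ y : ℤ, y ∈ Star P → ∃ e : Fin P.card → ℤ,
      (y : ℚ) = ∏ v, (((P.equivFin.symm v : ↥P) : ℕ) : ℚ) ^ (e v) := by
    rintro y ⟨a, rfl⟩
    refine ⟨fun v => (a ((P.equivFin.symm v : ↥P) : ℕ) : ℤ), ?_⟩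
    rw [Int.cast_prod, ← Finset.prod_coe_sort P, ← Equiv.prod_comp P.equivFin.symm]
    refine Finset.prod_congr rfl fun v _ => ?_
    rw [zpow_natCast]
    push_cast
    rfl
  rcases h with h | h
  · obtain ⟨e, he⟩ := key x h
    exact ⟨1, e, Or.inl rfl, by rw [he]; push_cast; rw [one_mul]⟩
  · obtain ⟨e, he⟩ := key (-x) h
    refine ⟨-1, e, Or.inr rfl, ?_⟩
    rw [← he]
    push_cast
    ring

/-- the chain modulo `ℓ` of a formal combination -/
noncomputable def chain {ι : Type} (ℓ : ℕ) (L : List (ℤ × (ι → ℕ))) : (ι → ℕ) →₀ ZMod ℓ :=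
  (L.map fun p => Finsupp.single p.2 (p.1 : ZMod ℓ)).sum

/-- the integer represented by a formal combination -/
def Phi (P : Finset ℕ) (ℓ : ℕ) (L : List (ℤ × (↥(P.erase ℓ) → ℕ))) : ℤ :=
  (L.map fun p => p.1 * EE P ℓ p.2).sum

open Classical in
theorem lemS (P : Finset ℕ) (hP : ∀ p ∈ P, p.Prime) {ℓ : ℕ} (hℓ : ℓ.Prime) (N k : ℕ) :
    ∃ D, ∀ L : List (ℤ × (↥(P.erase ℓ) → ℕ)), L.length ≤ N → (∀ p ∈ L, p.1.natAbs ≤ N) →
      Len P k (Phi P ℓ L) → Fill D N (chain ℓ L) := by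
  obtain ⟨H, hH⟩ := parts' (fun i : Fin P.card => ((P.equivFin.symm i : ↥P) : ℕ))
    (fun v => hP _ (P.equivFin.symm v).2)
    (fun v w h => P.equivFin.symm.injective (Subtype.ext h))
    (Fin N ⊕ Fin N ⊕ Fin k) (N + ℓ + 1)
  refine ⟨H, fun L hL hc hlen => ?_⟩
  obtain ⟨S, hS1, hS2, hS3⟩ := hlen
  let ε : Fin N → ℤ := fun i => (L.getD i (0, 0)).1
  let v : Fin N → (↥(P.erase ℓ) → ℕ) := fun i => (L.getD i (0, 0)).2
  let st : Fin k → ℤ × ℤ := fun j => (S.map fun s => ((1 : ℤ), s)).getD j (0, 1)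
  let ci : Fin N ⊕ Fin N ⊕ Fin k → ℤ :=
    Sum.elim ε (Sum.elim (fun i => -ε i) (fun j => -ℓ * (st j).1))
  let ui : Fin N ⊕ Fin N ⊕ Fin k → ℤ :=
    Sum.elim (fun i => (tt P ℓ (v i) : ℤ)) (Sum.elim (fun _ => 1) (fun j => (st j).2))
  have hε : ∀ i, (ε i).natAbs ≤ N := fun i =>
    getD_prop (0, 0) (fun p : ℤ × (↥(P.erase ℓ) → ℕ) => p.1.natAbs ≤ N) L hc (by simp) i
  have hst : ∀ j, ((st j).1 = 0 ∨ (st j).1 = 1) ∧ ((st j).2 ∈ Star P ∨ -(st j).2 ∈ Star P) :=
    fun j => getD_prop (0, 1)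
      (fun p : ℤ × ℤ => (p.1 = 0 ∨ p.1 = 1) ∧ (p.2 ∈ Star P ∨ -p.2 ∈ Star P))
      _ (by
        intro x hx
        rw [List.mem_map] at hx
        obtain ⟨s, hs, rfl⟩ := hx
        exact ⟨Or.inr rfl, hS2 s hs⟩) ⟨Or.inl rfl, Or.inl (one_star P)⟩ j
  have hui : ∀ x, ui x ∈ Star P ∨ -ui x ∈ Star P := by
    rintro (i | i | j)
    · exact Or.inl (tt_star _)
    · exact Or.inl (one_star P)
    · exact (hst j).2
  have hci : ∀ x, (ci x).natAbs ≤ N + ℓ + 1 := by
    rintro (i | i | j)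
    · exact (hε i).trans (by omega)
    · have := hε i
      simp only [ci, Sum.elim_inr, Sum.elim_inl, Int.natAbs_neg]
      omega
    · simp only [ci, Sum.elim_inr]
      rcases (hst j).1 with h | h
      · rw [h]
        simp
      · rw [h]
        simp
        omega
  have hsumZ : ∑ x, ci x * ui x = 0 := by
    rw [Fintype.sum_sum_type, Fintype.sum_sum_type]
    simp only [ci, ui, Sum.elim_inl, Sum.elim_inr]
    have e1 : ∑ i, (st i).1 * (st i).2 = Phi P ℓ L := by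
      rw [← hS3]
      have h1 := sum_getD ((0 : ℤ), (1 : ℤ)) (fun p : ℤ × ℤ => p.1 * p.2) (by simp) k
        (S.map fun s => ((1 : ℤ), s)) (by rwa [List.length_map])
      rw [List.map_map] at h1
      refine h1.trans ?_
      congr 1
      conv_rhs => rw [← List.map_id S]
      apply List.map_congr_left
      intro s _
      simp
    have e2 : ∑ i, ε i * EE P ℓ (v i) = Phi P ℓ L :=
      sum_getD ((0 : ℤ), (0 : ↥(P.erase ℓ) → ℕ)) (fun p => p.1 * EE P ℓ p.2) (by simp) N L hL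
    have e3 : ∑ i, ε i * (tt P ℓ (v i) : ℤ) = ℓ * Phi P ℓ L + ∑ i, ε i := by
      rw [← e2, Finset.mul_sum, ← Finset.sum_add_distrib]
      refine Finset.sum_congr rfl fun i _ => ?_
      have := EE_spec hP hℓ (v i)
      linear_combination (ε i) * (-this)
    have e4 : ∑ i, -(ℓ : ℤ) * (st i).1 * (st i).2 = -ℓ * Phi P ℓ L := by
      rw [← e1, Finset.mul_sum]
      refine Finset.sum_congr rfl fun i _ => ?_
      ring
    rw [e3, e4]
    simp only [mul_one, Finset.sum_neg_distrib]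
    ring
  obtain ⟨lam, h1, h2⟩ := hH (fun x => (ci x : ℚ)) (fun x => (ui x : ℚ)) (by
    intro x
    have h3 := mem_box' (n := N + ℓ + 1) (ci x) 1 (by
      have := hci x
      rw [Int.abs_eq_natAbs]
      exact_mod_cast this) le_rfl (by omega)
    simpa using h3) (fun x => star_isSU P (hui x)) (by exact_mod_cast hsumZ)
  -- the blocks modulo `ℓ`
  have h3 : ∀ β, ∑ i with lam (Sum.inl i) = β, (ε i : ZMod ℓ) =
      ∑ i with lam (Sum.inr (Sum.inl i)) = β, (ε i : ZMod ℓ) := by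
    intro β
    have h4 := h2 β
    have h5 : (∑ x with lam x = β, ci x * ui x) = 0 := by
      have h4' : ((∑ x with lam x = β, ci x * ui x : ℤ) : ℚ) = 0 := by
        push_cast
        convert h4
      exact_mod_cast h4'
    have h6 := congrArg (fun z : ℤ => (z : ZMod ℓ)) h5
    simp only [Int.cast_sum, Int.cast_mul, Int.cast_zero] at h6
    rw [Finset.sum_filter, Fintype.sum_sum_type, Fintype.sum_sum_type] at h6
    simp only [ci, ui, Sum.elim_inl, Sum.elim_inr] at h6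
    rw [Finset.sum_filter, Finset.sum_filter]
    have e1 : ∀ i, ((tt P ℓ (v i) : ℤ) : ZMod ℓ) = 1 := by
      intro i
      push_cast
      exact tt_mod hP hℓ _
    simp only [e1, mul_one, Int.cast_neg, Int.cast_mul, Int.cast_natCast, CharP.cast_eq_zero,
      neg_zero, zero_mul, ite_self, Finset.sum_const_zero, add_zero, Int.cast_one] at h6
    have e2 : ∑ x, (if lam (Sum.inr (Sum.inl x)) = β then -(ε x : ZMod ℓ) else 0) =
        -∑ x, (if lam (Sum.inr (Sum.inl x)) = β then (ε x : ZMod ℓ) else 0) := by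
      rw [← Finset.sum_neg_distrib]
      refine Finset.sum_congr rfl fun x _ => ?_
      split_ifs <;> simp
    rw [e2] at h6
    exact add_neg_eq_zero.1 h6
  let w : Fin N ⊕ Fin N ⊕ Fin k → (↥(P.erase ℓ) → ℕ) := fun β =>
    if ∃ i, lam (Sum.inr (Sum.inl i)) = β then 0 else
      if h : ∃ i, lam (Sum.inl i) = β then v h.choose else 0
  have hw : ∀ i, nd (v i) (w (lam (Sum.inl i))) ≤ H := by
    intro i
    apply tt_near hP hℓ
    simp only [w]
    split_ifs with h4 h5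
    · obtain ⟨i', hi'⟩ := h4
      have := h1 (Sum.inl i) (Sum.inr (Sum.inl i')) hi'.symm
      simp only [ui, Sum.elim_inl, Sum.elim_inr] at this
      rw [tt_zero]
      simpa using this
    · have := h1 (Sum.inl i) (Sum.inl h5.choose) h5.choose_spec.symm
      simp only [ui, Sum.elim_inl] at this
      simpa using this
    · exact absurd ⟨i, rfl⟩ h5
  have e1 : chain ℓ L = ∑ i, Finsupp.single (v i) (ε i : ZMod ℓ) :=
    (sum_getD ((0 : ℤ), (0 : ↥(P.erase ℓ) → ℕ))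
      (fun p => Finsupp.single p.2 (p.1 : ZMod ℓ)) (by simp) N L hL).symm
  have e2 : ∑ i, Finsupp.single (w (lam (Sum.inl i))) (ε i : ZMod ℓ) =
      Finsupp.single 0 (∑ β, ∑ i with lam (Sum.inl i) = β, (ε i : ZMod ℓ)) := by
    rw [← Finset.sum_fiberwise Finset.univ (fun i => lam (Sum.inl i))]
    rw [Finsupp.single_finsetSum]
    refine Finset.sum_congr rfl fun β _ => ?_
    have e3 : ∑ i with lam (Sum.inl i) = β, Finsupp.single (w (lam (Sum.inl i)))
        (ε i : ZMod ℓ) =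
        Finsupp.single (w β) (∑ i with lam (Sum.inl i) = β, (ε i : ZMod ℓ)) := by
      rw [Finsupp.single_finsetSum]
      refine Finset.sum_congr rfl fun i hi => ?_
      rw [(Finset.mem_filter.1 hi).2]
    rw [e3]
    by_cases h4 : ∃ i, lam (Sum.inr (Sum.inl i)) = β
    · simp only [w]
      rw [if_pos h4]
    · have e4 : ∑ i with lam (Sum.inl i) = β, (ε i : ZMod ℓ) = 0 := by
        rw [h3 β]
        apply Finset.sum_eq_zero
        intro i hi
        exact absurd ⟨i, (Finset.mem_filter.1 hi).2⟩ h4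
      rw [e4, Finsupp.single_zero, Finsupp.single_zero]
  have e3 : chain ℓ L = ∑ i, (Finsupp.single (v i) (ε i : ZMod ℓ) -
      Finsupp.single (w (lam (Sum.inl i))) (ε i : ZMod ℓ)) +
      Finsupp.single 0 (∑ β, ∑ i with lam (Sum.inl i) = β, (ε i : ZMod ℓ)) := by
    rw [Finset.sum_sub_distrib, ← e2, sub_add_cancel, e1]
  rw [e3]
  have f1 := Fill.sum (D := H) (k := 1) (Finset.univ : Finset (Fin N))
    (fun i => Finsupp.single (v i) (ε i : ZMod ℓ) -
      Finsupp.single (w (lam (Sum.inl i))) (ε i : ZMod ℓ)) (by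
    intro i _
    have := Fill.step (ε i : ZMod ℓ) (v i) (w (lam (Sum.inl i))) (hw i) (Fill.zero H)
    rwa [zero_add, zero_add] at this)
  have f2 := f1.add (Fill.base (D := H)
    (∑ β, ∑ i with lam (Sum.inl i) = β, (ε i : ZMod ℓ)))
  refine f2.mono ?_
  rw [Finset.card_univ, Fintype.card_fin]
  omega

end Pool.Agent.Q26.CG
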