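import Mathlib
import Pool.Agent.Q26.CG.Fill

set_option autoImplicit false

/-!
# Quasi-inverse chain maps force equality of ranks
-/

namespace Pool.Agent.Q26.CG

variable {ι κ : Type} [Fintype ι] [Fintype κ] {R : Type} [CommRing R]

section path

variable {D K : ℕ} {H : (ι → ℕ) → ((κ → ℕ) →₀ R)}

omit [Fintype ι] in
open Classical in
lemma coord (hH : ∀ u i, Fill D K (H (u + Pi.single i 1) - H u)) (u : ι → ℕ) (i : ι) (n : ℕ) :
    Fill D (K * n) (H (u + Pi.single i n) - H u) := by
  induction n with
  | zero =>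
    rw [Pi.single_zero, add_zero, sub_self]
    exact (Fill.zero D).mono (Nat.zero_le _)
  | succ n ih =>
    have h1 := hH (u + Pi.single i n) i
    rw [add_assoc, ← Pi.single_add] at h1
    have h2 := h1.add ih
    rw [sub_add_sub_cancel] at h2
    refine h2.mono (le_of_eq ?_)
    ring

open Classical in
lemma upd (hH : ∀ u i, Fill D K (H (u + Pi.single i 1) - H u)) (u : ι → ℕ) (i : ι) (y n : ℕ)
    (h1 : y ≤ u i + n) (h2 : u i ≤ y + n) :
    Fill D (K * n) (H (Function.update u i y) - H u) := by
  rcases le_total (u i) y with h | h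
  · have e : Function.update u i y = u + Pi.single i (y - u i) := by
      funext j
      by_cases hj : j = i
      · subst hj
        simp only [Function.update_self, Pi.add_apply, Pi.single_eq_same]
        omega
      · simp [Function.update_of_ne hj, Pi.single_eq_of_ne hj]
    rw [e]
    exact (coord hH u i _).mono (Nat.mul_le_mul_left _ (by omega))
  · have e : u = Function.update u i y + Pi.single i (u i - y) := by
      funext j
      by_cases hj : j = i
      · subst hj
        simp only [Function.update_self, Pi.add_apply, Pi.single_eq_same]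
        omega
      · simp [Function.update_of_ne hj, Pi.single_eq_of_ne hj]
    have h3 := (coord hH (Function.update u i y) i (u i - y)).neg
    rw [← e, neg_sub] at h3
    exact h3.mono (Nat.mul_le_mul_left _ (by omega))

open Classical in
lemma path (hH : ∀ u i, Fill D K (H (u + Pi.single i 1) - H u)) (u u' : ι → ℕ) (n : ℕ)
    (h : nd u u' ≤ n) : Fill D (Fintype.card ι * (K * n)) (H u' - H u) := by
  have key : ∀ s : Finset ι, Fill D (s.card * (K * n)) (H (s.piecewise u' u) - H u) := by
    intro s
    induction s using Finset.induction_on with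
    | empty =>
      rw [Finset.piecewise_empty, sub_self]
      exact (Fill.zero D).mono (Nat.zero_le _)
    | insert i s hi ih =>
      rw [Finset.piecewise_insert, Finset.card_insert_of_notMem hi]
      have hn := nd_le_iff.1 h i
      have e : s.piecewise u' u i = u i := Finset.piecewise_eq_of_notMem _ _ _ hi
      have h1 := upd hH (s.piecewise u' u) i (u' i) n (by rw [e]; omega) (by rw [e]; omega)
      have h2 := h1.add ih
      rw [sub_add_sub_cancel] at h2
      refine h2.mono (le_of_eq ?_)
      ring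
  have := key Finset.univ
  rwa [Finset.piecewise_univ, Finset.card_univ] at this

end path

open Classical in
lemma cluster (T : Finset (κ → ℕ)) (M : ℕ) : ∀ (n j : ℕ) (cen : (κ → ℕ) → (κ → ℕ)),
    (T.image cen).card ≤ n → (∀ v ∈ T, nd v (cen v) ≤ (M + 1) ^ j) →
    ∃ j' ≤ j + n, ∃ cen' : (κ → ℕ) → (κ → ℕ), (∀ v ∈ T, nd v (cen' v) ≤ (M + 1) ^ j') ∧
      ∀ v ∈ T, ∀ v' ∈ T, nd (cen' v) (cen' v') ≤ M * (M + 1) ^ j' → cen' v = cen' v' := by
  intro n
  induction n with
  | zero =>
    intro j cen h1 h2
    refine ⟨j, by omega, cen, h2, fun v hv => ?_⟩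
    have : T.image cen = ∅ := by
      rw [← Finset.card_eq_zero]
      omega
    rw [Finset.image_eq_empty] at this
    rw [this] at hv
    exact absurd hv (Finset.notMem_empty _)
  | succ n ih =>
    intro j cen h1 h2
    by_cases hsep : ∀ v ∈ T, ∀ v' ∈ T, nd (cen v) (cen v') ≤ M * (M + 1) ^ j → cen v = cen v'
    · exact ⟨j, by omega, cen, h2, hsep⟩
    · push Not at hsep
      obtain ⟨v, hv, v', hv', h3, h4⟩ := hsep
      obtain ⟨j', hj', cen', h5, h6⟩ := ih (j + 1)
        (fun w => if cen w = cen v' then cen v else cen w) (by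
          have hsub : T.image (fun w => if cen w = cen v' then cen v else cen w) ⊆
              (T.image cen).erase (cen v') := by
            intro x hx
            rw [Finset.mem_image] at hx
            obtain ⟨w, hw, rfl⟩ := hx
            rw [Finset.mem_erase]
            split_ifs with h
            · exact ⟨h4, Finset.mem_image_of_mem _ hv⟩
            · exact ⟨h, Finset.mem_image_of_mem _ hw⟩
          have h7 := Finset.card_le_card hsub
          rw [Finset.card_erase_of_mem (Finset.mem_image_of_mem _ hv')] at h7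
          omega) (by
          intro w hw
          have h8 := h2 w hw
          have h9 : (M + 1) ^ (j + 1) = M * (M + 1) ^ j + (M + 1) ^ j := by ring
          rw [h9]
          split_ifs with h
          · have h10 := nd_tri w (cen w) (cen v)
            rw [h, nd_comm (cen v') (cen v)] at h10
            rw [h] at h8
            omega
          · omega)
      exact ⟨j', by omega, cen', h5, h6⟩

/-- the points with coordinates rounded down to multiples of `r` -/
def rep (r : ℕ) (y : κ → ℕ) : κ → ℕ := fun i => r * (y i / r)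

lemma nd_rep {r : ℕ} (hr : 1 ≤ r) (y : κ → ℕ) : nd y (rep r y) ≤ r := by
  rw [nd_le_iff]
  intro i
  have h1 := Nat.div_add_mod (y i) r
  have h2 := Nat.mod_lt (y i) (by omega : r > 0)
  unfold rep
  omega

open Classical in
/-- representatives of the points near `σ` -/
noncomputable def reps (M r : ℕ) (σ : κ → ℕ) : Finset (κ → ℕ) :=
  (Fintype.piFinset fun i => Finset.Icc (σ i / r - M) (σ i / r + M)).image fun z i => r * z i

lemma reps_card (M r : ℕ) (σ : κ → ℕ) : (reps M r σ).card ≤ (2 * M + 1) ^ Fintype.card κ := by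
  classical
  unfold reps
  refine Finset.card_image_le.trans ?_
  rw [Fintype.card_piFinset]
  refine (Finset.prod_le_pow_card _ _ (2 * M + 1) fun i _ => ?_).trans (le_of_eq ?_)
  · rw [Nat.card_Icc]
    omega
  · rw [Finset.card_univ]

lemma mem_reps {M r : ℕ} (hr : 1 ≤ r) {σ τ : κ → ℕ} (h : nd τ σ ≤ M * r) :
    rep r τ ∈ reps M r σ := by
  classical
  unfold reps
  rw [Finset.mem_image]
  refine ⟨fun i => τ i / r, ?_, rfl⟩
  rw [Fintype.mem_piFinset]
  intro i
  rw [Finset.mem_Icc]
  have h1 := nd_le_iff.1 h i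
  have h2 : τ i / r ≤ σ i / r + M := by
    rw [← Nat.add_mul_div_right _ _ (by omega : 0 < r)]
    exact Nat.div_le_div_right h1.1
  have h3 : σ i / r ≤ τ i / r + M := by
    rw [← Nat.add_mul_div_right _ _ (by omega : 0 < r)]
    exact Nat.div_le_div_right h1.2
  exact ⟨Nat.sub_le_iff_le_add.2 h3, h2⟩

open Classical in
/-- the ball in `ℕ^ι` -/
noncomputable def ball (x : ι → ℕ) (ρ : ℕ) : Finset (ι → ℕ) :=
  Fintype.piFinset fun i => Finset.Icc (x i - ρ) (x i + ρ)

lemma ball_card (x : ι → ℕ) (ρ : ℕ) : (ball x ρ).card ≤ (2 * ρ + 1) ^ Fintype.card ι := by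
  classical
  unfold ball
  rw [Fintype.card_piFinset]
  refine (Finset.prod_le_pow_card _ _ (2 * ρ + 1) fun i _ => ?_).trans (le_of_eq ?_)
  · rw [Nat.card_Icc]
    omega
  · rw [Finset.card_univ]

lemma mem_ball {x u : ι → ℕ} {ρ : ℕ} (h : nd u x ≤ ρ) : u ∈ ball x ρ := by
  classical
  unfold ball
  rw [Fintype.mem_piFinset]
  intro i
  rw [Finset.mem_Icc]
  have := nd_le_iff.1 h i
  omega

section main

variable {D K : ℕ} {F : (ι → ℕ) → ((κ → ℕ) →₀ R)} {G : (κ → ℕ) → ((ι → ℕ) →₀ R)}

open Classical in
/-- charged clusters of `F u` are near clusters of `F u0` or the origin -/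
lemma claimB (hF : ∀ u i, Fill D K (F (u + Pi.single i 1) - F u)) {m M r : ℕ}
    (hM : M = Fintype.card ι * (K * m) * D + 2)
    {u u0 : ι → ℕ} (hu : nd u0 u ≤ m * r) {cen cen0 : (κ → ℕ) → (κ → ℕ)}
    (h1 : ∀ v ∈ (F u).support, nd v (cen v) ≤ r)
    (h2 : ∀ v ∈ (F u).support, ∀ v' ∈ (F u).support, nd (cen v) (cen v') ≤ M * r →
      cen v = cen v')
    (h3 : ∀ v ∈ (F u0).support, nd v (cen0 v) ≤ r) {τ : κ → ℕ}
    (hτ : (Finsupp.mapDomain cen (F u)) τ ≠ 0) :
    ∃ σ ∈ insert 0 ((F u0).support.image cen0), nd τ σ ≤ M * r := by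
  by_contra hcon
  push Not at hcon
  have hτ0 : ∃ v0 ∈ (F u).support, cen v0 = τ := by
    have h4 := Finsupp.mapDomain_support (Finsupp.mem_support_iff.2 hτ)
    rw [Finset.mem_image] at h4
    exact h4
  obtain ⟨v0, hv0, hv0τ⟩ := hτ0
  have hMr : M * r = (Fintype.card ι * (K * (m * r))) * D + 2 * r := by
    rw [hM]
    ring
  have hfill := path hF u0 u (m * r) hu
  have h5 : ∀ x ∈ (F u).support, (cen x = τ ↔ nd x τ ≤ r) := by
    intro x hx
    constructor
    · intro h
      rw [← h]
      exact h1 x hx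
    · intro h
      rw [← hv0τ]
      apply h2 x hx v0 hv0
      rw [hv0τ]
      have h6 := nd_tri (cen x) x τ
      have h7 := h1 x hx
      rw [nd_comm x (cen x)] at h7
      omega
  have h6 : ∀ x ∈ (F u0).support, M * r < nd x τ + r := by
    intro x hx
    have h7 := hcon (cen0 x) (Finset.mem_insert_of_mem (Finset.mem_image_of_mem _ hx))
    have h8 := nd_tri τ x (cen0 x)
    have h9 := h3 x hx
    rw [nd_comm τ x] at h8
    omega
  have h7 := fill_ball hfill τ r (by
    intro x hx
    by_cases hxu : x ∈ (F u).support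
    · by_cases hxc : cen x = τ
      · exact Or.inl ((h5 x hxu).1 hxc)
      · right
        by_contra hc
        apply hxc
        rw [← hv0τ]
        apply h2 x hxu v0 hv0
        rw [hv0τ]
        have h8 := nd_tri (cen x) x τ
        have h9 := h1 x hxu
        rw [nd_comm x (cen x)] at h9
        omega
    · right
      have hxu0 : x ∈ (F u0).support := by
        rw [Finsupp.mem_support_iff]
        intro h0
        apply hx
        rw [Finsupp.sub_apply, h0, Finsupp.notMem_support_iff.1 hxu, sub_zero]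
      have := h6 x hxu0
      omega) (by
    have := hcon 0 (Finset.mem_insert_self _ _)
    rw [nd_comm] at this
    omega)
  rw [bs_sub] at h7
  have h8 : bs τ r (F u0) = 0 := by
    unfold bs
    apply Finset.sum_eq_zero
    intro x hx
    beta_reduce
    rw [if_neg]
    have := h6 x hx
    omega
  rw [h8, sub_zero] at h7
  apply hτ
  rw [← h7]
  unfold bs Finsupp.mapDomain
  rw [Finsupp.sum_apply]
  refine Finsupp.sum_congr fun x hx => ?_
  rw [Finsupp.single_apply]
  simp only [h5 x hx]

open Classical in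
/-- the finite set near which all points of a cube lie -/
noncomputable def W (G : (κ → ℕ) → ((ι → ℕ) →₀ R)) (M r : ℕ) (T : Finset (κ → ℕ)) :
    Finset (ι → ℕ) :=
  insert 0 ((insert 0 T).biUnion fun σ => (reps M r σ).biUnion fun y => (G y).support)

lemma W_card (hGc : ∀ v, (G v).support.card ≤ K) (M r : ℕ) (T : Finset (κ → ℕ))
    (hT : T.card ≤ K) :
    (W G M r T).card ≤ (K + 1) * ((2 * M + 1) ^ Fintype.card κ * K) + 1 := by
  classical
  unfold W
  refine (Finset.card_insert_le _ _).trans (Nat.add_le_add_right ?_ 1)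
  refine (Finset.card_biUnion_le_card_mul _ _ ((2 * M + 1) ^ Fintype.card κ * K)
    fun σ _ => ?_).trans ?_
  · refine (Finset.card_biUnion_le_card_mul _ _ K fun y _ => hGc y).trans ?_
    exact Nat.mul_le_mul_right _ (reps_card M r σ)
  · refine Nat.mul_le_mul_right _ ((Finset.card_insert_le _ _).trans (by omega))

open Classical in
lemma near [Nontrivial R] (hF : ∀ u i, Fill D K (F (u + Pi.single i 1) - F u))
    (hFc : ∀ u, (F u).support.card ≤ K)
    (hG : ∀ u i, Fill D K (G (u + Pi.single i 1) - G u))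
    (hGF : ∀ u, Fill D K (Finsupp.single u 1 - Finsupp.linearCombination R G (F u)))
    {m M r : ℕ} (hr : 1 ≤ r)
    (hM : M = Fintype.card ι * (K * m) * D + 2)
    {u u0 : ι → ℕ} (hu : nd u0 u ≤ m * r) {cen cen0 : (κ → ℕ) → (κ → ℕ)}
    (h1 : ∀ v ∈ (F u).support, nd v (cen v) ≤ r)
    (h2 : ∀ v ∈ (F u).support, ∀ v' ∈ (F u).support, nd (cen v) (cen v') ≤ M * r →
      cen v = cen v')
    (h3 : ∀ v ∈ (F u0).support, nd v (cen0 v) ≤ r) :
    ∃ x ∈ W G M r ((F u0).support.image cen0),
      nd u x ≤ (K + 2 * K * K * Fintype.card κ) * D * r := by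
  let c2 := Finsupp.mapDomain (rep r) (Finsupp.mapDomain cen (F u))
  -- moving to the representatives is cheap
  have hfill1 : Fill D (K * (Fintype.card κ * (K * (2 * r))))
      (Finsupp.linearCombination R G (F u) - Finsupp.linearCombination R G c2) := by
    have e : Finsupp.linearCombination R G (F u) - Finsupp.linearCombination R G c2 =
        ∑ x ∈ (F u).support, (F u) x • (G x - G (rep r (cen x))) := by
      simp only [c2]
      rw [← Finsupp.mapDomain_comp, Finsupp.linearCombination_mapDomain,
        Finsupp.linearCombination_apply, Finsupp.linearCombination_apply]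
      unfold Finsupp.sum
      rw [← Finset.sum_sub_distrib]
      refine Finset.sum_congr rfl fun x _ => ?_
      rw [smul_sub]
      rfl
    rw [e]
    refine (Fill.sum (k := Fintype.card κ * (K * (2 * r))) _ _ fun x hx => ?_).mono
      (Nat.mul_le_mul_right _ (hFc u))
    apply Fill.smul
    apply path hG
    have h4 := nd_tri (rep r (cen x)) (cen x) x
    have h5 := nd_rep hr (cen x)
    have h6 := h1 x hx
    rw [nd_comm] at h5 h6
    omega
  have hfill2 : Fill D ((K + 2 * K * K * Fintype.card κ) * r)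
      (Finsupp.single u 1 - Finsupp.linearCombination R G c2) := by
    have h4 := (hGF u).add hfill1
    rw [sub_add_sub_cancel] at h4
    refine h4.mono ?_
    have e : (K + 2 * K * K * Fintype.card κ) * r =
      K * r + K * (Fintype.card κ * (K * (2 * r))) := by ring
    rw [e]
    have : K ≤ K * r := Nat.le_mul_of_pos_right _ (by omega)
    omega
  by_contra hcon
  push Not at hcon
  have h4 : ∀ x, (Finsupp.linearCombination R G c2) x ≠ 0 →
      (K + 2 * K * K * Fintype.card κ) * D * r < nd u x := by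
    intro x hx
    apply hcon
    unfold W
    apply Finset.mem_insert_of_mem
    rw [Finset.mem_biUnion]
    rw [Finsupp.linearCombination_apply, Finsupp.sum_apply] at hx
    obtain ⟨y, hy, hyx⟩ := Finset.exists_ne_zero_of_sum_ne_zero hx
    have hy2 := Finsupp.mapDomain_support hy
    rw [Finset.mem_image] at hy2
    obtain ⟨τ, hτ, rfl⟩ := hy2
    rw [Finsupp.mem_support_iff] at hτ
    obtain ⟨σ, hσ, hσ2⟩ := claimB hF hM hu h1 h2 h3 hτ
    refine ⟨σ, hσ, ?_⟩
    rw [Finset.mem_biUnion]
    refine ⟨rep r τ, mem_reps hr hσ2, ?_⟩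
    rw [Finsupp.mem_support_iff]
    intro h0
    apply hyx
    beta_reduce
    rw [Finsupp.smul_apply, h0, smul_zero]
  have e1 : (K + 2 * K * K * Fintype.card κ) * D * r =
      (K + 2 * K * K * Fintype.card κ) * r * D := by ring
  have h5 := fill_ball hfill2 u 0 (by
    intro x hx
    by_cases hxu : x = u
    · left
      rw [hxu, nd_self]
    · right
      rw [Finsupp.sub_apply, Finsupp.single_apply, if_neg (fun h => hxu h.symm), zero_sub,
        neg_ne_zero] at hx
      have := h4 x hx
      rw [nd_comm, e1] at this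
      omega) (by
    have := hcon 0 (Finset.mem_insert_self _ _)
    rw [nd_comm, e1] at this
    omega)
  rw [bs_sub, bs_single, if_pos (by rw [nd_self])] at h5
  have h6 : bs u 0 (Finsupp.linearCombination R G c2) = 0 := by
    unfold bs
    apply Finset.sum_eq_zero
    intro x hx
    beta_reduce
    rw [if_neg]
    rw [Finsupp.mem_support_iff] at hx
    have := h4 x hx
    rw [nd_comm] at this
    omega
  rw [h6, sub_zero] at h5
  exact one_ne_zero h5

open Classical in
/-- the number of points of one cube at one scale -/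
lemma cube [Nontrivial R] (hF : ∀ u i, Fill D K (F (u + Pi.single i 1) - F u))
    (hFc : ∀ u, (F u).support.card ≤ K)
    (hG : ∀ u i, Fill D K (G (u + Pi.single i 1) - G u))
    (hGc : ∀ u, (G u).support.card ≤ K)
    (hGF : ∀ u, Fill D K (Finsupp.single u 1 - Finsupp.linearCombination R G (F u)))
    {m M r : ℕ} (hr : 1 ≤ r)
    (hM : M = Fintype.card ι * (K * m) * D + 2) (A : Finset (ι → ℕ))
    (hA : ∀ u ∈ A, ∀ u' ∈ A, nd u u' ≤ m * r)
    (hgood : ∀ u ∈ A, ∃ cen : (κ → ℕ) → (κ → ℕ), (∀ v ∈ (F u).support, nd v (cen v) ≤ r) ∧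
      (∀ v ∈ (F u).support, ∀ v' ∈ (F u).support, nd (cen v) (cen v') ≤ M * r →
        cen v = cen v')) :
    A.card ≤ ((K + 1) * ((2 * M + 1) ^ Fintype.card κ * K) + 1) *
      (2 * ((K + 2 * K * K * Fintype.card κ) * D * r) + 1) ^ Fintype.card ι := by
  rcases A.eq_empty_or_nonempty with rfl | ⟨u0, hu0⟩
  · simp
  · obtain ⟨cen0, h3, -⟩ := hgood u0 hu0
    have hsub : A ⊆ (W G M r ((F u0).support.image cen0)).biUnion fun x =>
        ball x ((K + 2 * K * K * Fintype.card κ) * D * r) := by
      intro u hu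
      obtain ⟨cen, h1, h2⟩ := hgood u hu
      obtain ⟨x, hx, hx2⟩ := near hF hFc hG hGF hr hM (hA u0 hu0 u hu) h1 h2 h3
      rw [Finset.mem_biUnion]
      exact ⟨x, hx, mem_ball hx2⟩
    refine (Finset.card_le_card hsub).trans ?_
    refine (Finset.card_biUnion_le_card_mul _ _ _ fun x _ => ball_card x _).trans ?_
    exact Nat.mul_le_mul_right _ (W_card hGc M r _ (Finset.card_image_le.trans (hFc u0)))

open Classical in
lemma global [Nontrivial R] (hF : ∀ u i, Fill D K (F (u + Pi.single i 1) - F u))
    (hFc : ∀ u, (F u).support.card ≤ K)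
    (hG : ∀ u i, Fill D K (G (u + Pi.single i 1) - G u))
    (hGc : ∀ u, (G u).support.card ≤ K)
    (hGF : ∀ u, Fill D K (Finsupp.single u 1 - Finsupp.linearCombination R G (F u)))
    {m M : ℕ} (hm : 1 ≤ m)
    (hM : M = Fintype.card ι * (K * m) * D + 2) :
    m ^ Fintype.card ι ≤ (K + 1) * (((K + 1) * ((2 * M + 1) ^ Fintype.card κ * K) + 1) *
      (2 * ((K + 2 * K * K * Fintype.card κ) * D) + 1) ^ Fintype.card ι) := by
  have hgood : ∀ u : ι → ℕ, ∃ j, j ≤ K ∧ ∃ cen : (κ → ℕ) → (κ → ℕ),
      (∀ v ∈ (F u).support, nd v (cen v) ≤ (M + 1) ^ j) ∧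
      (∀ v ∈ (F u).support, ∀ v' ∈ (F u).support, nd (cen v) (cen v') ≤ M * (M + 1) ^ j →
        cen v = cen v') := by
    intro u
    obtain ⟨j, hj, cen, h1, h2⟩ := cluster (F u).support M K 0 id
      (Finset.card_image_le.trans (hFc u)) (by
        intro v _
        rw [id, nd_self]
        exact Nat.zero_le _)
    exact ⟨j, by omega, cen, h1, h2⟩
  choose sc hsc hgood using hgood
  let N := m * (M + 1) ^ K
  let B : Finset (ι → ℕ) := Fintype.piFinset fun _ => Finset.range N
  have hB : B.card = N ^ Fintype.card ι := by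
    simp only [B]
    rw [Fintype.card_piFinset]
    simp
  have hMpos : 0 < M + 1 := by omega
  let Wb := (K + 1) * ((2 * M + 1) ^ Fintype.card κ * K) + 1
  let Cc := (K + 2 * K * K * Fintype.card κ) * D
  have hj : ∀ j ∈ Finset.range (K + 1), (B.filter fun u => sc u = j).card ≤
      ((M + 1) ^ K) ^ Fintype.card ι * (Wb * (2 * Cc + 1) ^ Fintype.card ι) := by
    intro j hjK
    rw [Finset.mem_range] at hjK
    have hrho : 0 < m * (M + 1) ^ j := Nat.mul_pos (by omega) (pow_pos hMpos _)
    have h1 := Finset.card_le_mul_card_image_of_maps_to (s := B.filter fun u => sc u = j)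
      (t := Fintype.piFinset fun _ : ι => Finset.range ((M + 1) ^ (K - j)))
      (f := fun u i => u i / (m * (M + 1) ^ j)) (by
        intro u hu
        rw [Finset.mem_filter, Fintype.mem_piFinset] at hu
        rw [Fintype.mem_piFinset]
        intro i
        have h2 := hu.1 i
        rw [Finset.mem_range] at h2 ⊢
        apply Nat.div_lt_of_lt_mul
        refine h2.trans_le (le_of_eq ?_)
        simp only [N]
        rw [mul_assoc, ← pow_add]
        congr 2
        omega) (Wb * (2 * (Cc * (M + 1) ^ j) + 1) ^ Fintype.card ι) (by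
        intro w _
        apply cube hF hFc hG hGc hGF (Nat.one_le_iff_ne_zero.2 (pow_pos hMpos j).ne') hM
        · intro u hu u' hu'
          rw [Finset.mem_filter] at hu hu'
          rw [nd_le_iff]
          intro i
          have h2 : u i / (m * (M + 1) ^ j) = u' i / (m * (M + 1) ^ j) := by
            have := congrFun (hu.2.trans hu'.2.symm) i
            exact this
          have h3 := Nat.div_add_mod (u i) (m * (M + 1) ^ j)
          have h4 := Nat.div_add_mod (u' i) (m * (M + 1) ^ j)
          have h5 := Nat.mod_lt (u i) hrho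
          have h6 := Nat.mod_lt (u' i) hrho
          rw [h2] at h3
          omega
        · intro u hu
          rw [Finset.mem_filter, Finset.mem_filter] at hu
          have := hgood u
          rw [hu.1.2] at this
          exact this)
    refine h1.trans ?_
    rw [Fintype.card_piFinset]
    simp only [Finset.prod_const, Finset.card_univ, Finset.card_range]
    have h2 : 2 * (Cc * (M + 1) ^ j) + 1 ≤ (2 * Cc + 1) * (M + 1) ^ j := by
      have : 1 ≤ (M + 1) ^ j := Nat.one_le_iff_ne_zero.2 (pow_pos hMpos j).ne'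
      calc 2 * (Cc * (M + 1) ^ j) + 1 ≤ 2 * (Cc * (M + 1) ^ j) + (M + 1) ^ j := by omega
        _ = (2 * Cc + 1) * (M + 1) ^ j := by ring
    have h3 := Nat.pow_le_pow_left h2 (Fintype.card ι)
    calc Wb * (2 * (Cc * (M + 1) ^ j) + 1) ^ Fintype.card ι *
          ((M + 1) ^ (K - j)) ^ Fintype.card ι
        ≤ Wb * ((2 * Cc + 1) * (M + 1) ^ j) ^ Fintype.card ι *
          ((M + 1) ^ (K - j)) ^ Fintype.card ι :=
          Nat.mul_le_mul_right _ (Nat.mul_le_mul_left _ h3)
      _ = ((M + 1) ^ j * (M + 1) ^ (K - j)) ^ Fintype.card ι *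
          (Wb * (2 * Cc + 1) ^ Fintype.card ι) := by
          rw [mul_pow, mul_pow]
          ring
      _ = ((M + 1) ^ K) ^ Fintype.card ι * (Wb * (2 * Cc + 1) ^ Fintype.card ι) := by
          rw [← pow_add]
          congr 3
          omega
  have h1 : B.card = ∑ j ∈ Finset.range (K + 1), (B.filter fun u => sc u = j).card := by
    apply Finset.card_eq_sum_card_fiberwise
    intro u _
    rw [Finset.mem_coe, Finset.mem_range]
    have := hsc u
    omega
  have h2 := Finset.sum_le_sum hj
  rw [← h1, hB, Finset.sum_const, Finset.card_range, smul_eq_mul] at h2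
  have h3 : ((M + 1) ^ K) ^ Fintype.card ι * m ^ Fintype.card ι ≤
      ((M + 1) ^ K) ^ Fintype.card ι *
        ((K + 1) * (Wb * (2 * Cc + 1) ^ Fintype.card ι)) := by
    refine (le_of_eq ?_).trans (h2.trans (le_of_eq ?_))
    · simp only [N]
      rw [mul_pow]
      ring
    · ring
  exact Nat.le_of_mul_le_mul_left h3 (pow_pos (pow_pos hMpos _) _)

theorem comb [Nontrivial R]
    (hF : ∀ (u : ι → ℕ) (i : ι), Fill D K (F (u + Set.indicator {i} 1) - F u))
    (hFc : ∀ u, (F u).support.card ≤ K)
    (hG : ∀ (u : κ → ℕ) (i : κ), Fill D K (G (u + Set.indicator {i} 1) - G u))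
    (hGc : ∀ u, (G u).support.card ≤ K)
    (hGF : ∀ u, Fill D K (Finsupp.single u 1 - Finsupp.linearCombination R G (F u))) :
    Fintype.card ι ≤ Fintype.card κ := by
  classical
  have eι : ∀ i : ι, (Set.indicator {i} 1 : ι → ℕ) = Pi.single i 1 := by
    intro i
    funext j
    rw [Set.indicator_apply, Pi.single_apply]
    simp
  have eκ : ∀ i : κ, (Set.indicator {i} 1 : κ → ℕ) = Pi.single i 1 := by
    intro i
    funext j
    rw [Set.indicator_apply, Pi.single_apply]
    simp
  have hF' : ∀ (u : ι → ℕ) (i : ι), Fill D K (F (u + Pi.single i 1) - F u) := by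
    intro u i
    rw [← eι]
    exact hF u i
  have hG' : ∀ (u : κ → ℕ) (i : κ), Fill D K (G (u + Pi.single i 1) - G u) := by
    intro u i
    rw [← eκ]
    exact hG u i
  by_contra hcon
  push Not at hcon
  let a := Fintype.card ι
  let b := Fintype.card κ
  let H := (K + 1) * (((K + 1) * ((2 * (a * K * D) + 5) ^ b * K) + 1) *
      (2 * ((K + 2 * K * K * b) * D) + 1) ^ a)
  let m := H + 1
  have hm : 1 ≤ m := by
    simp only [m]
    omega
  have h1 := global hF' hFc hG' hGc hGF hm (M := a * (K * m) * D + 2) rfl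
  have h2 : 2 * (a * (K * m) * D + 2) + 1 ≤ (2 * (a * K * D) + 5) * m := by
    have : 5 ≤ 5 * m := by omega
    calc 2 * (a * (K * m) * D + 2) + 1 = 2 * (a * K * D) * m + 5 := by ring
      _ ≤ 2 * (a * K * D) * m + 5 * m := by omega
      _ = (2 * (a * K * D) + 5) * m := by ring
  have h3 : (2 * (a * (K * m) * D + 2) + 1) ^ b ≤ (2 * (a * K * D) + 5) ^ b * m ^ b := by
    rw [← mul_pow]
    exact Nat.pow_le_pow_left h2 _
  have h4 : ((K + 1) * ((2 * (a * (K * m) * D + 2) + 1) ^ b * K) + 1) ≤
      ((K + 1) * ((2 * (a * K * D) + 5) ^ b * K) + 1) * m ^ b := by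
    have h5 : 1 ≤ m ^ b := Nat.one_le_iff_ne_zero.2 (pow_pos (by omega) _).ne'
    calc (K + 1) * ((2 * (a * (K * m) * D + 2) + 1) ^ b * K) + 1
        ≤ (K + 1) * (((2 * (a * K * D) + 5) ^ b * m ^ b) * K) + m ^ b :=
          Nat.add_le_add (Nat.mul_le_mul_left _ (Nat.mul_le_mul_right _ h3)) h5
      _ = ((K + 1) * ((2 * (a * K * D) + 5) ^ b * K) + 1) * m ^ b := by ring
  have h5 : m ^ a ≤ H * m ^ b := by
    refine h1.trans ?_
    calc (K + 1) * (((K + 1) * ((2 * (a * (K * m) * D + 2) + 1) ^ b * K) + 1) *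
        (2 * ((K + 2 * K * K * b) * D) + 1) ^ a)
        ≤ (K + 1) * ((((K + 1) * ((2 * (a * K * D) + 5) ^ b * K) + 1) * m ^ b) *
        (2 * ((K + 2 * K * K * b) * D) + 1) ^ a) :=
          Nat.mul_le_mul_left _ (Nat.mul_le_mul_right _ h4)
      _ = H * m ^ b := by
        simp only [H]
        ring
  have h6 : m ^ (b + 1) ≤ m ^ a := Nat.pow_le_pow_right hm (by
    simp only [a, b]
    omega)
  have h7 : m * m ^ b ≤ H * m ^ b := by
    refine le_trans (le_of_eq ?_) (h6.trans h5)
    ring
  have h8 := Nat.le_of_mul_le_mul_right h7 (pow_pos (by omega) _)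
  simp only [m] at h8
  omega

end main

end Pool.Agent.Q26.CG
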