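import Mathlib
import Pool.Agent.Q26.CG.Arith
import Pool.Agent.Q26.CG.Comb

set_option autoImplicit false

/-!
# Coarse homomorphisms between the word metrics and chain maps
-/

namespace Pool.Agent.Q26.CG

/-- controlled and additive up to bounded error -/
structure QHom (P Q : Finset ℕ) (f : ℤ → ℤ) : Prop where
  ctrl : ∀ r, ∃ R, ∀ x y, Len P r (x - y) → Len Q R (f x - f y)
  add : ∃ C, ∀ x y, Len Q C (f (x + y) - (f x + f y))

section hom

variable {P Q : Finset ℕ} {f : ℤ → ℤ}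

lemma QHom.zero (h : QHom P Q f) : ∃ C, Len Q C (f 0) := by
  obtain ⟨C, hC⟩ := h.add
  refine ⟨C, ?_⟩
  have := (hC 0 0).neg
  rw [add_zero] at this
  convert this using 1
  ring

lemma QHom.neg (h : QHom P Q f) : ∃ C, ∀ x, Len Q C (f (-x) + f x) := by
  obtain ⟨C, hC⟩ := h.add
  obtain ⟨C0, hC0⟩ := h.zero
  refine ⟨C0 + C, fun x => ?_⟩
  have := hC0.sub (hC (-x) x)
  rw [neg_add_cancel] at this
  convert this using 1
  ring

lemma QHom.nmul (h : QHom P Q f) (N : ℕ) :
    ∃ C, ∀ n : ℕ, n ≤ N → ∀ x, Len Q C (f (n * x) - n * f x) := by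
  induction N with
  | zero =>
    obtain ⟨C0, hC0⟩ := h.zero
    refine ⟨C0, fun n hn x => ?_⟩
    have : n = 0 := by omega
    subst this
    simpa using hC0
  | succ N ih =>
    obtain ⟨C1, hC1⟩ := ih
    obtain ⟨C, hC⟩ := h.add
    refine ⟨C1 + C, fun n hn x => ?_⟩
    rcases Nat.lt_or_ge N n with h1 | h1
    · have e : n = N + 1 := by omega
      subst e
      have := (hC1 N le_rfl x).add (hC (N * x) x)
      convert this using 1
      push_cast
      rw [add_mul, one_mul]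
      ring
    · exact (hC1 n h1 x).mono (by omega)

lemma QHom.zmul (h : QHom P Q f) (N : ℕ) :
    ∃ C, ∀ n : ℤ, n.natAbs ≤ N → ∀ x, Len Q C (f (n * x) - n * f x) := by
  obtain ⟨C1, hC1⟩ := h.nmul N
  obtain ⟨C2, hC2⟩ := h.neg
  refine ⟨C1 + C2, fun n hn x => ?_⟩
  have h1 := hC1 n.natAbs hn x
  rcases Int.natAbs_eq n with h2 | h2
  · rw [← h2] at h1
    exact h1.mono (by omega)
  · have h3 := (h1.neg).add (hC2 (n.natAbs * x))
    rw [← neg_mul, ← h2] at h3
    convert h3 using 1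
    have : (n.natAbs : ℤ) = -n := by omega
    rw [this]
    ring

lemma QHom.list (h : QHom P Q f) (N M : ℕ) : ∃ C, ∀ L : List (ℤ × ℤ), L.length ≤ N →
    (∀ p ∈ L, p.1.natAbs ≤ M) →
    Len Q C (f (L.map fun p => p.1 * p.2).sum - (L.map fun p => p.1 * f p.2).sum) := by
  induction N with
  | zero =>
    obtain ⟨C0, hC0⟩ := h.zero
    refine ⟨C0, fun L hL _ => ?_⟩
    have : L = [] := List.length_eq_zero_iff.1 (by omega)
    subst this
    simpa using hC0
  | succ N ih =>
    obtain ⟨C1, hC1⟩ := ih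
    obtain ⟨C, hC⟩ := h.add
    obtain ⟨C2, hC2⟩ := h.zmul M
    obtain ⟨C0, hC0⟩ := h.zero
    refine ⟨C0 + (C + (C2 + C1)), fun L hL hM => ?_⟩
    rcases L with - | ⟨a, L⟩
    · simpa using hC0.mono (Nat.le_add_right _ _)
    · have h1 := hC1 L (by
        rw [List.length_cons] at hL
        omega) fun p hp => hM p (List.mem_cons_of_mem _ hp)
      have h2 := hC2 a.1 (hM a List.mem_cons_self) a.2
      have h3 := hC (a.1 * a.2) (L.map fun p => p.1 * p.2).sum
      have h4 := h3.add (h2.add h1)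
      rw [List.map_cons, List.sum_cons, List.map_cons, List.sum_cons]
      refine Len.mono ?_ (Nat.le_add_left _ _)
      convert h4 using 1
      ring

end hom

section dec

variable {P : Finset ℕ} {ℓ : ℕ}

lemma unit_dec (hP : ∀ p ∈ P, p.Prime) (hℓ : ℓ.Prime) : ∃ N : ℕ, ∀ s ∈ Star P,
    ∃ (r x n : ℤ) (v : ↥(P.erase ℓ) → ℕ), s = r + ℓ * x ∧ r.natAbs ≤ N ∧ n.natAbs ≤ N ∧
      Len P 1 (x - n * EE P ℓ v) := by
  refine ⟨∏ p : ↥(P.erase ℓ), (p : ℕ) ^ ℓ, ?_⟩
  rintro s ⟨a, rfl⟩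
  by_cases h : ℓ ∈ P ∧ a ℓ ≠ 0
  · refine ⟨0, ∏ p ∈ P, (p : ℤ) ^ (Function.update a ℓ (a ℓ - 1) p), 0, 0, ?_, by simp,
      by simp, ?_⟩
    · rw [zero_add, ← Finset.mul_prod_erase P _ h.1, ← Finset.mul_prod_erase P _ h.1]
      rw [Function.update_self, ← mul_assoc, ← pow_succ', Nat.sub_add_cancel (by omega)]
      congr 1
      refine Finset.prod_congr rfl fun p hp => ?_
      rw [Function.update_of_ne (Finset.mem_erase.1 hp).1]
    · rw [zero_mul, sub_zero]
      exact Len.star ⟨_, rfl⟩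
  · have e0 : ∏ p ∈ P, (p : ℤ) ^ a p = ∏ p ∈ P.erase ℓ, (p : ℤ) ^ a p := by
      by_cases h1 : ℓ ∈ P
      · have h2 : a ℓ = 0 := by
          by_contra h2
          exact h ⟨h1, h2⟩
        rw [← Finset.mul_prod_erase P _ h1, h2, pow_zero, one_mul]
      · rw [Finset.erase_eq_of_notMem h1]
    have hℓ1 : 0 < ℓ - 1 := by
      have := hℓ.two_le
      omega
    let v : ↥(P.erase ℓ) → ℕ := fun p => a p / (ℓ - 1)
    let m : ℕ := ∏ p : ↥(P.erase ℓ), (p : ℕ) ^ (a p % (ℓ - 1))
    have e1 : ∏ p ∈ P, (p : ℤ) ^ a p = m * tt P ℓ v := by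
      rw [e0, ← Finset.prod_coe_sort]
      simp only [m, tt, v]
      rw [← Nat.cast_mul, ← Finset.prod_mul_distrib, Nat.cast_prod]
      refine Finset.prod_congr rfl fun p _ => ?_
      rw [← pow_add, Nat.mod_add_div]
      push_cast
      rfl
    have hm : m ≤ ∏ p : ↥(P.erase ℓ), (p : ℕ) ^ ℓ := by
      simp only [m]
      apply Finset.prod_le_prod'
      intro p _
      have hp := (hP _ (Finset.mem_erase.1 p.2).2).pos
      exact Nat.pow_le_pow_right hp (by
        have := Nat.mod_lt (a p) hℓ1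
        omega)
    refine ⟨m, m * EE P ℓ v, m, v, ?_, ?_, ?_, ?_⟩
    · rw [e1]
      have := EE_spec hP hℓ v
      linear_combination (m : ℤ) * (-this)
    · rwa [Int.natAbs_natCast]
    · rwa [Int.natAbs_natCast]
    · rw [sub_self]
      exact (Len.zero P).mono (Nat.zero_le _)

lemma Phi_append (L L' : List (ℤ × (↥(P.erase ℓ) → ℕ))) :
    Phi P ℓ (L ++ L') = Phi P ℓ L + Phi P ℓ L' := by
  unfold Phi
  rw [List.map_append, List.sum_append]

lemma Phi_cons (a : ℤ × (↥(P.erase ℓ) → ℕ)) (L : List (ℤ × (↥(P.erase ℓ) → ℕ))) :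
    Phi P ℓ (a :: L) = a.1 * EE P ℓ a.2 + Phi P ℓ L := by
  unfold Phi
  rw [List.map_cons, List.sum_cons]

lemma dec (hP : ∀ p ∈ P, p.Prime) (hℓ : ℓ.Prime) (k : ℕ) : ∃ N : ℕ, ∀ s, Len P k s →
    ∃ (r x : ℤ) (L : List (ℤ × (↥(P.erase ℓ) → ℕ))), s = r + ℓ * x ∧ r.natAbs ≤ N ∧
      L.length ≤ N ∧ (∀ p ∈ L, p.1.natAbs ≤ N) ∧ Len P N (x - Phi P ℓ L) := by
  obtain ⟨N1, hN1⟩ := unit_dec hP hℓ
  have key : ∀ S : List ℤ, (∀ s ∈ S, s ∈ Star P ∨ -s ∈ Star P) →
      ∃ (r x : ℤ) (L : List (ℤ × (↥(P.erase ℓ) → ℕ))), S.sum = r + ℓ * x ∧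
      r.natAbs ≤ S.length * N1 ∧ L.length ≤ S.length ∧ (∀ p ∈ L, p.1.natAbs ≤ N1) ∧
      Len P S.length (x - Phi P ℓ L) := by
    intro S
    induction S with
    | nil =>
      intro _
      refine ⟨0, 0, [], by simp, by simp, by simp, by simp, ?_⟩
      simpa [Phi] using Len.zero P
    | cons s S ih =>
      intro hS
      obtain ⟨r, x, L, h1, h2, h3, h4, h5⟩ := ih fun t ht => hS t (List.mem_cons_of_mem _ ht)
      have h6 : ∃ (r x n : ℤ) (v : ↥(P.erase ℓ) → ℕ), s = r + ℓ * x ∧ r.natAbs ≤ N1 ∧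
          n.natAbs ≤ N1 ∧ Len P 1 (x - n * EE P ℓ v) := by
        rcases hS s List.mem_cons_self with h | h
        · exact hN1 s h
        · obtain ⟨r, x, n, v, g1, g2, g3, g4⟩ := hN1 _ h
          refine ⟨-r, -x, -n, v, ?_, by rwa [Int.natAbs_neg], by rwa [Int.natAbs_neg], ?_⟩
          · linear_combination -g1
          · convert g4.neg using 1
            ring
      obtain ⟨r', x', n, v, g1, g2, g3, g4⟩ := h6
      refine ⟨r' + r, x' + x, (n, v) :: L, ?_, ?_, ?_, ?_, ?_⟩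
      · rw [List.sum_cons, h1, g1]
        ring
      · rw [List.length_cons, add_mul, one_mul]
        have := Int.natAbs_add_le r' r
        omega
      · rw [List.length_cons, List.length_cons]
        omega
      · intro p hp
        rw [List.mem_cons] at hp
        rcases hp with rfl | hp
        · exact g3
        · exact h4 p hp
      · rw [Phi_cons, List.length_cons]
        convert h5.add g4 using 1
        ring
  refine ⟨k * N1 + k + N1, ?_⟩
  rintro s ⟨S, hS1, hS2, rfl⟩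
  obtain ⟨r, x, L, h1, h2, h3, h4, h5⟩ := key S hS2
  have h6 : S.length * N1 ≤ k * N1 := Nat.mul_le_mul_right _ hS1
  exact ⟨r, x, L, h1, by omega, by omega, fun p hp => (h4 p hp).trans (by omega),
    h5.mono (by omega)⟩

lemma lemD (hP : ∀ p ∈ P, p.Prime) (hℓ : ℓ.Prime) (k : ℕ) : ∃ N : ℕ, ∀ z, Len P k (ℓ * z) →
    ∃ L : List (ℤ × (↥(P.erase ℓ) → ℕ)), L.length ≤ N ∧ (∀ p ∈ L, p.1.natAbs ≤ N) ∧
      Len P N (z - Phi P ℓ L) := by
  obtain ⟨N, hN⟩ := dec hP hℓ k
  refine ⟨N + N, fun z hz => ?_⟩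
  obtain ⟨r, x, L, h1, h2, h3, h4, h5⟩ := hN _ hz
  refine ⟨L, by omega, fun p hp => (h4 p hp).trans (by omega), ?_⟩
  have h6 : r = ℓ * (z - x) := by linear_combination -h1
  have h7 : (z - x).natAbs ≤ N := by
    refine le_trans ?_ h2
    rw [h6, Int.natAbs_mul, Int.natAbs_natCast]
    exact Nat.le_mul_of_pos_left _ hℓ.pos
  have h8 := ((Len.int P (z - x)).mono h7).add h5
  convert h8 using 1
  ring

end dec

section chainlemmas

variable {ι κ : Type} {ℓ : ℕ}

lemma chain_append (L L' : List (ℤ × (ι → ℕ))) :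
    chain ℓ (L ++ L') = chain ℓ L + chain ℓ L' := by
  unfold chain
  rw [List.map_append, List.sum_append]

lemma chain_cons (a : ℤ × (ι → ℕ)) (L : List (ℤ × (ι → ℕ))) :
    chain ℓ (a :: L) = Finsupp.single a.2 (a.1 : ZMod ℓ) + chain ℓ L := by
  unfold chain
  rw [List.map_cons, List.sum_cons]

lemma chain_supp (L : List (ℤ × (ι → ℕ))) : (chain ℓ L).support.card ≤ L.length := by
  classical
  induction L with
  | nil => simp [chain]
  | cons a L ih =>
    rw [chain_cons, List.length_cons]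
    refine (Finset.card_le_card Finsupp.support_add).trans
      ((Finset.card_union_le _ _).trans ?_)
    have : (Finsupp.single a.2 (a.1 : ZMod ℓ)).support.card ≤ 1 :=
      (Finset.card_le_card Finsupp.support_single_subset).trans (by simp)
    omega

/-- the scalar multiple of a formal combination -/
def smulL {X : Type} (n : ℤ) (L : List (ℤ × X)) : List (ℤ × X) := L.map fun p => (n * p.1, p.2)

lemma chain_smulL (n : ℤ) (L : List (ℤ × (ι → ℕ))) :
    chain ℓ (smulL n L) = (n : ZMod ℓ) • chain ℓ L := by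
  induction L with
  | nil => simp [chain, smulL]
  | cons a L ih =>
    have e : smulL n (a :: L) = (n * a.1, a.2) :: smulL n L := rfl
    rw [e, chain_cons, chain_cons, ih, smul_add, Finsupp.smul_single]
    push_cast
    rfl

lemma Phi_smulL {P : Finset ℕ} (n : ℤ) (L : List (ℤ × (↥(P.erase ℓ) → ℕ))) :
    Phi P ℓ (smulL n L) = n * Phi P ℓ L := by
  induction L with
  | nil => simp [Phi, smulL]
  | cons a L ih =>
    have e : smulL n (a :: L) = (n * a.1, a.2) :: smulL n L := rfl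
    rw [e, Phi_cons, Phi_cons, ih]
    ring

/-- pushing a formal combination forward -/
def push {X Y : Type} (G : Y → List (ℤ × X)) (L : List (ℤ × Y)) : List (ℤ × X) :=
  L.flatMap fun p => smulL p.1 (G p.2)

lemma push_cons {X Y : Type} (G : Y → List (ℤ × X)) (a : ℤ × Y) (L : List (ℤ × Y)) :
    push G (a :: L) = smulL a.1 (G a.2) ++ push G L := rfl

lemma chain_push (G : (κ → ℕ) → List (ℤ × (ι → ℕ))) (L : List (ℤ × (κ → ℕ))) :
    chain ℓ (push G L) =
      Finsupp.linearCombination (ZMod ℓ) (fun v => chain ℓ (G v)) (chain ℓ L) := by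
  induction L with
  | nil => simp [chain, push]
  | cons a L ih =>
    rw [push_cons, chain_append, chain_smulL, chain_cons, map_add, ih,
      Finsupp.linearCombination_single]

lemma Phi_push {P : Finset ℕ} {X : Type} (G : X → List (ℤ × (↥(P.erase ℓ) → ℕ)))
    (L : List (ℤ × X)) :
    Phi P ℓ (push G L) = (L.map fun p => p.1 * Phi P ℓ (G p.2)).sum := by
  induction L with
  | nil => simp [Phi, push]
  | cons a L ih =>
    rw [push_cons, Phi_append, Phi_smulL, ih, List.map_cons, List.sum_cons]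

lemma push_bd {X Y : Type} (G : Y → List (ℤ × X)) (L : List (ℤ × Y)) (N M : ℕ)
    (h1 : L.length ≤ N) (h2 : ∀ p ∈ L, p.1.natAbs ≤ N)
    (h3 : ∀ v, (G v).length ≤ M ∧ ∀ p ∈ G v, p.1.natAbs ≤ M) :
    (push G L).length ≤ N * M ∧ ∀ p ∈ push G L, p.1.natAbs ≤ N * M := by
  constructor
  · have : (push G L).length ≤ L.length * M := by
      clear h1 h2
      induction L with
      | nil => simp [push]
      | cons a L ih =>
        rw [push_cons, List.length_append, List.length_cons, add_mul, one_mul]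
        have h4 := (h3 a.2).1
        have e : (smulL a.1 (G a.2)).length = (G a.2).length := by
          unfold smulL
          rw [List.length_map]
        omega
    exact this.trans (Nat.mul_le_mul_right _ h1)
  · intro p hp
    unfold push at hp
    rw [List.mem_flatMap] at hp
    obtain ⟨a, ha, hp⟩ := hp
    unfold smulL at hp
    rw [List.mem_map] at hp
    obtain ⟨q, hq, rfl⟩ := hp
    simp only
    rw [Int.natAbs_mul]
    exact Nat.mul_le_mul (h2 a ha) ((h3 a.2).2 q hq)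

end chainlemmas

section transfer

variable {P Q : Finset ℕ} {ℓ : ℕ} {f g : ℤ → ℤ}

/-- the images of the `E_u` are short formal combinations of the `E_v` -/
lemma transfer (hP : ∀ p ∈ P, p.Prime) (hQ : ∀ p ∈ Q, p.Prime) (hℓ : ℓ.Prime)
    (hf : QHom P Q f) : ∃ N : ℕ, ∀ u : ↥(P.erase ℓ) → ℕ,
      ∃ L : List (ℤ × (↥(Q.erase ℓ) → ℕ)), L.length ≤ N ∧ (∀ p ∈ L, p.1.natAbs ≤ N) ∧
        Len Q N (f (EE P ℓ u) - Phi Q ℓ L) := by
  obtain ⟨R, hR⟩ := hf.ctrl 2
  obtain ⟨C0, hC0⟩ := hf.zero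
  obtain ⟨C1, hC1⟩ := hf.nmul ℓ
  obtain ⟨N, hN⟩ := lemD hQ hℓ (C1 + (C0 + R))
  refine ⟨N, fun u => hN _ ?_⟩
  have h1 : Len P 2 (ℓ * EE P ℓ u - 0) := by
    rw [EE_spec hP hℓ, sub_zero]
    exact (Len.star (tt_star u)).sub (Len.star (one_star P))
  have h2 := hR _ _ h1
  have h3 := hC1 ℓ le_rfl (EE P ℓ u)
  have h4 := h3.neg.add (hC0.add h2)
  convert h4 using 1
  ring

lemma tt_add (u v : ↥(P.erase ℓ) → ℕ) : tt P ℓ (u + v) = tt P ℓ u * tt P ℓ v := by
  unfold tt
  rw [← Finset.prod_mul_distrib]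
  refine Finset.prod_congr rfl fun p _ => ?_
  rw [Pi.add_apply, mul_add, pow_add]

lemma EE_add (hP : ∀ p ∈ P, p.Prime) (hℓ : ℓ.Prime) (u v : ↥(P.erase ℓ) → ℕ) :
    EE P ℓ (u + v) - EE P ℓ u = EE P ℓ v * tt P ℓ u := by
  have h1 := EE_spec hP hℓ (u + v)
  have h2 := EE_spec hP hℓ u
  have h3 := EE_spec hP hℓ v
  rw [tt_add] at h1
  push_cast at h1
  have h4 : (ℓ : ℤ) * (EE P ℓ (u + v) - EE P ℓ u) = ℓ * (EE P ℓ v * tt P ℓ u) := by
    linear_combination h1 - h2 - (tt P ℓ u : ℤ) * h3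
  exact mul_left_cancel₀ (by exact_mod_cast hℓ.ne_zero) h4

lemma adj (hP : ∀ p ∈ P, p.Prime) (hℓ : ℓ.Prime) : ∃ k : ℕ, ∀ (u : ↥(P.erase ℓ) → ℕ)
    (i : ↥(P.erase ℓ)), Len P k (EE P ℓ (u + Set.indicator {i} 1) - EE P ℓ u) := by
  refine ⟨∑ i : ↥(P.erase ℓ), (EE P ℓ (Set.indicator {i} 1)).natAbs, fun u i => ?_⟩
  rw [EE_add hP hℓ]
  have h1 := (Len.star (tt_star u)).zmul (EE P ℓ (Set.indicator {i} 1))
  refine h1.mono ?_
  rw [mul_one]
  exact Finset.single_le_sum (f := fun i : ↥(P.erase ℓ) =>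
    (EE P ℓ (Set.indicator {i} 1)).natAbs) (fun _ _ => Nat.zero_le _) (Finset.mem_univ i)

lemma fillF (hP : ∀ p ∈ P, p.Prime) (hQ : ∀ p ∈ Q, p.Prime) (hℓ : ℓ.Prime)
    (hf : QHom P Q f) {N : ℕ} (F : (↥(P.erase ℓ) → ℕ) → List (ℤ × (↥(Q.erase ℓ) → ℕ)))
    (h1 : ∀ u, (F u).length ≤ N) (h2 : ∀ u, ∀ p ∈ F u, p.1.natAbs ≤ N)
    (h3 : ∀ u, Len Q N (f (EE P ℓ u) - Phi Q ℓ (F u))) :
    ∃ D K, ∀ (u : ↥(P.erase ℓ) → ℕ) (i : ↥(P.erase ℓ)),
      Fill D K (chain ℓ (F (u + Set.indicator {i} 1)) - chain ℓ (F u)) := by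
  obtain ⟨k, hk⟩ := adj hP hℓ
  obtain ⟨R, hR⟩ := hf.ctrl k
  obtain ⟨D, hD⟩ := lemS Q hQ hℓ (N + N) (R + (N + N))
  refine ⟨D, N + N, fun u i => ?_⟩
  have h4 := hD (F (u + Set.indicator {i} 1) ++ smulL (-1) (F u)) (by
    rw [List.length_append]
    have e : (smulL (-1) (F u)).length = (F u).length := by
      unfold smulL
      rw [List.length_map]
    have := h1 u
    have := h1 (u + Set.indicator {i} 1)
    omega) (by
    intro p hp
    rw [List.mem_append] at hp
    rcases hp with hp | hp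
    · exact (h2 _ p hp).trans (by omega)
    · unfold smulL at hp
      rw [List.mem_map] at hp
      obtain ⟨q, hq, rfl⟩ := hp
      simp only
      rw [neg_one_mul, Int.natAbs_neg]
      exact (h2 _ q hq).trans (by omega)) (by
    rw [Phi_append, Phi_smulL]
    have h5 := hR _ _ (hk u i)
    have h6 := h5.add ((h3 u).sub (h3 (u + Set.indicator {i} 1)))
    convert h6 using 1
    ring)
  rw [chain_append, chain_smulL] at h4
  push_cast at h4
  rwa [neg_one_smul, ← sub_eq_add_neg] at h4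

theorem rank_le (hP : ∀ p ∈ P, p.Prime) (hQ : ∀ p ∈ Q, p.Prime) (hℓ : ℓ.Prime)
    (hf : QHom P Q f) (hg : QHom Q P g) {C : ℕ} (hgf : ∀ x, Len P C (g (f x) - x)) :
    (P.erase ℓ).card ≤ (Q.erase ℓ).card := by
  classical
  have : Fact ℓ.Prime := ⟨hℓ⟩
  obtain ⟨N, hN⟩ := transfer hP hQ hℓ hf
  choose F hF1 hF2 hF3 using hN
  obtain ⟨M, hM⟩ := transfer hQ hP hℓ hg
  choose G hG1 hG2 hG3 using hM
  obtain ⟨D1, K1, hD1⟩ := fillF hP hQ hℓ hf F hF1 hF2 hF3
  obtain ⟨D2, K2, hD2⟩ := fillF hQ hP hℓ hg G hG1 hG2 hG3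
  obtain ⟨R, hR⟩ := hg.ctrl N
  obtain ⟨C1, hC1⟩ := hg.list N N
  obtain ⟨D3, hD3⟩ := lemS P hP hℓ (N * M + 1) (C + (R + (C1 + N * (N * M))))
  have hGF : ∀ u : ↥(P.erase ℓ) → ℕ, Fill D3 (N * M + 1) (Finsupp.single u 1 -
      Finsupp.linearCombination (ZMod ℓ) (fun v => chain ℓ (G v)) (chain ℓ (F u))) := by
    intro u
    obtain ⟨b1, b2⟩ := push_bd G (F u) N M (hF1 u) (hF2 u) fun v => ⟨hG1 v, hG2 v⟩
    have h4 := hD3 ((1, u) :: smulL (-1) (push G (F u))) (by
      rw [List.length_cons]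
      have e : (smulL (-1) (push G (F u))).length = (push G (F u)).length := by
        unfold smulL
        rw [List.length_map]
      omega) (by
      intro p hp
      rw [List.mem_cons] at hp
      rcases hp with rfl | hp
      · simp
      · unfold smulL at hp
        rw [List.mem_map] at hp
        obtain ⟨q, hq, rfl⟩ := hp
        simp only
        rw [neg_one_mul, Int.natAbs_neg]
        exact (b2 q hq).trans (by omega)) (by
      rw [Phi_cons, Phi_smulL, Phi_push]
      have g1 := (hgf (EE P ℓ u)).neg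
      have g2 := hR (f (EE P ℓ u)) (Phi Q ℓ (F u)) (hF3 u)
      have g3 := hC1 ((F u).map fun p => (p.1, EE Q ℓ p.2)) (by
        rw [List.length_map]
        exact hF1 u) (by
        intro p hp
        rw [List.mem_map] at hp
        obtain ⟨q, hq, rfl⟩ := hp
        exact hF2 u q hq)
      rw [List.map_map, List.map_map] at g3
      have g4 : Len P (N * (N * M)) (((F u).map fun p => p.1 * g (EE Q ℓ p.2)).sum -
          ((F u).map fun p => p.1 * Phi P ℓ (G p.2)).sum) := by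
        have key : ∀ L : List (ℤ × (↥(Q.erase ℓ) → ℕ)), (∀ p ∈ L, p.1.natAbs ≤ N) →
            Len P (L.length * (N * M)) ((L.map fun p => p.1 * g (EE Q ℓ p.2)).sum -
              (L.map fun p => p.1 * Phi P ℓ (G p.2)).sum) := by
          intro L
          induction L with
          | nil =>
            intro _
            simpa using Len.zero P
          | cons a L ih =>
            intro hL
            have i1 := ih fun p hp => hL p (List.mem_cons_of_mem _ hp)
            have i2 := ((hG3 a.2).zmul a.1).mono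
              (Nat.mul_le_mul_right M (hL a List.mem_cons_self))
            rw [List.map_cons, List.sum_cons, List.map_cons, List.sum_cons,
              List.length_cons, add_mul, one_mul]
            convert i1.add i2 using 1
            ring
        exact (key (F u) (hF2 u)).mono (Nat.mul_le_mul_right _ (hF1 u))
      have g5 := g1.add (g2.add (g3.add g4))
      convert g5 using 1
      simp only [Phi, Function.comp_def]
      ring)
    rw [chain_cons, chain_smulL, chain_push] at h4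
    push_cast at h4
    rwa [neg_one_smul, ← sub_eq_add_neg] at h4
  have key := comb (R := ZMod ℓ) (D := D1 + D2 + D3) (K := N + M + K1 + K2 + (N * M + 1))
    (F := fun u => chain ℓ (F u)) (G := fun v => chain ℓ (G v))
    (fun u i => ((hD1 u i).monoD (by omega)).mono (by omega))
    (fun u => (chain_supp _).trans ((hF1 u).trans (by omega)))
    (fun u i => ((hD2 u i).monoD (by omega)).mono (by omega))
    (fun u => (chain_supp _).trans ((hG1 u).trans (by omega)))
    (fun u => ((hGF u).monoD (by omega)).mono (by omega))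
  rwa [Fintype.card_coe, Fintype.card_coe] at key

end transfer

/-- the second map of a coarse isomorphism is a coarse homomorphism -/
lemma QHom.inverse {P Q : Finset ℕ} {f g : ℤ → ℤ} (hf : QHom P Q f)
    (hg : ∀ r, ∃ R, ∀ x y, Len Q r (x - y) → Len P R (g x - g y))
    {C C' : ℕ} (hgf : ∀ x, Len P C (g (f x) - x)) (hfg : ∀ y, Len Q C' (f (g y) - y)) :
    QHom Q P g := by
  refine ⟨hg, ?_⟩
  obtain ⟨A, hA⟩ := hf.add
  obtain ⟨R, hR⟩ := hg (A + (C' + C'))
  refine ⟨R + C, fun x y => ?_⟩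
  have h1 := (hA (g x) (g y)).add ((hfg x).add (hfg y))
  have h2 := (hR (f (g x + g y)) (x + y) (by
    convert h1 using 1
    ring)).neg
  have h3 := h2.add (hgf (g x + g y))
  convert h3 using 1
  ring

theorem main {P Q : Finset ℕ} (hP : ∀ p ∈ P, p.Prime) (hQ : ∀ p ∈ Q, p.Prime) {f g : ℤ → ℤ}
    (hf : QHom P Q f) (hg : ∀ r, ∃ R, ∀ x y, Len Q r (x - y) → Len P R (g x - g y))
    {C C' : ℕ} (hgf : ∀ x, Len P C (g (f x) - x)) (hfg : ∀ y, Len Q C' (f (g y) - y)) :
    P = Q := by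
  have hg' := hf.inverse hg hgf hfg
  have key : ∀ ℓ : ℕ, ℓ.Prime → (P.erase ℓ).card = (Q.erase ℓ).card := fun ℓ hℓ =>
    le_antisymm (rank_le hP hQ hℓ hf hg' hgf) (rank_le hQ hP hℓ hg' hf hfg)
  obtain ⟨ℓ, h1, h2⟩ := Nat.exists_infinite_primes ((P ∪ Q).sup id + 1)
  have h3 : ℓ ∉ P ∪ Q := by
    intro h
    have := Finset.le_sup (f := id) h
    simp only [id] at this
    omega
  rw [Finset.mem_union, not_or] at h3
  have h4 := key ℓ h2
  rw [Finset.erase_eq_of_notMem h3.1, Finset.erase_eq_of_notMem h3.2] at h4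
  apply Finset.eq_of_subset_of_card_le _ h4.ge
  intro p hp
  by_contra hpQ
  have h5 := key p (hP p hp)
  rw [Finset.erase_eq_of_notMem hpQ, Finset.card_erase_of_mem hp] at h5
  have h6 := Finset.card_pos.2 ⟨p, hp⟩
  omega

end Pool.Agent.Q26.CG
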